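import Mathlib

/-!
# Finite sets of points with partners in coordinate directions
-/

namespace Pool.Agent.K6.H94.BI

variable {ι L : Type*} [DecidableEq ι] [DecidableEq L]

/-- A finite nonempty set of points each of which has a partner in each of the directions of `T` has
at least `2 ^ |T|` elements. -/
theorem two_pow_le (T : Finset ι) : ∀ (A : Finset (ι → L)), A.Nonempty →
    (∀ l ∈ A, ∀ a ∈ T, ∃ y, y ≠ l a ∧ Function.update l a y ∈ A) → 2 ^ T.card ≤ A.card := by
  induction T using Finset.induction_on with
  | empty =>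
    intro A hA _
    simpa using hA.card_pos
  | insert a T haT ih =>
    classical
    intro A hA h
    obtain ⟨l, hl⟩ := hA
    obtain ⟨y, hy, hly⟩ := h l hl a (Finset.mem_insert_self _ _)
    have key : ∀ x, (∃ l ∈ A, l a = x) → 2 ^ T.card ≤ (A.filter fun l => l a = x).card := by
      rintro x ⟨m, hm, hmx⟩
      refine ih _ ⟨m, by simp [hm, hmx]⟩ ?_
      intro l' hl' b hb
      rw [Finset.mem_filter] at hl'
      obtain ⟨z, hz, hz'⟩ := h l' hl'.1 b (Finset.mem_insert_of_mem hb)
      refine ⟨z, hz, ?_⟩
      rw [Finset.mem_filter]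
      refine ⟨hz', ?_⟩
      rw [Function.update_of_ne]
      · exact hl'.2
      · rintro rfl
        exact haT hb
    have h1 := key (l a) ⟨l, hl, rfl⟩
    have h2 := key y ⟨_, hly, by simp⟩
    have h3 : Disjoint (A.filter fun m => m a = l a) (A.filter fun m => m a = y) := by
      rw [Finset.disjoint_left]
      intro m hm hm'
      rw [Finset.mem_filter] at hm hm'
      exact hy (hm'.2.symm.trans hm.2)
    have h4 : (A.filter fun m => m a = l a) ∪ (A.filter fun m => m a = y) ⊆ A := by
      intro m hm
      rw [Finset.mem_union, Finset.mem_filter, Finset.mem_filter] at hm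
      rcases hm with hm | hm
      · exact hm.1
      · exact hm.1
    have h5 := Finset.card_le_card h4
    rw [Finset.card_union_of_disjoint h3] at h5
    rw [Finset.card_insert_of_notMem haT, pow_succ]
    omega

theorem two_mul_le_two_pow' (n : ℕ) : 2 * n ≤ 2 ^ n := by
  induction n with
  | zero => simp
  | succ n ih =>
    rcases n with _ | n
    · simp
    · rw [pow_succ]
      have : 1 ≤ n + 1 := by omega
      omega

/-- A finite set of points in which every nonzero coordinate can be changed to another nonzero value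
and whose supports cover the set of coordinates has at least twice as many elements as there are
coordinates. -/
theorem two_mul_card_le [Fintype ι] [Zero L] (A : Finset (ι → L))
    (h : ∀ l ∈ A, ∀ a, l a ≠ 0 → ∃ y, y ≠ l a ∧ y ≠ 0 ∧ Function.update l a y ∈ A)
    (hall : ∀ a, ∃ l ∈ A, l a ≠ 0) : 2 * Fintype.card ι ≤ A.card := by
  classical
  let supp : (ι → L) → Finset ι := fun l => Finset.univ.filter fun a => l a ≠ 0
  have hs : ∀ l a, a ∈ supp l ↔ l a ≠ 0 := fun l a => by simp [supp]
  have hT : ∀ T ∈ A.image supp, 2 * T.card ≤ (A.filter fun l => supp l = T).card := by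
    intro T hT
    rw [Finset.mem_image] at hT
    obtain ⟨l, hl, hlT⟩ := hT
    refine le_trans (two_mul_le_two_pow' _) (two_pow_le T _ ⟨l, by simp [hl, hlT]⟩ ?_)
    intro m hm a ha
    rw [Finset.mem_filter] at hm
    have hma : m a ≠ 0 := by
      rw [← hs, hm.2]
      exact ha
    obtain ⟨y, hy, hy0, hmy⟩ := h m hm.1 a hma
    refine ⟨y, hy, ?_⟩
    rw [Finset.mem_filter]
    refine ⟨hmy, ?_⟩
    rw [← hm.2]
    ext b
    rw [hs, hs]
    by_cases hb : b = a
    · subst hb
      rw [Function.update_self]
      exact ⟨fun _ => hma, fun _ => hy0⟩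
    · rw [Function.update_of_ne hb]
  have h1 : Fintype.card ι ≤ ∑ T ∈ A.image supp, T.card := by
    have h2 : (Finset.univ : Finset ι) ⊆ (A.image supp).biUnion id := by
      intro a _
      obtain ⟨l, hl, hla⟩ := hall a
      rw [Finset.mem_biUnion]
      exact ⟨supp l, Finset.mem_image_of_mem _ hl, (hs l a).2 hla⟩
    calc Fintype.card ι = (Finset.univ : Finset ι).card := rfl
      _ ≤ _ := Finset.card_le_card h2
      _ ≤ _ := Finset.card_biUnion_le
  rw [Finset.card_eq_sum_card_image supp A]
  calc 2 * Fintype.card ι ≤ 2 * ∑ T ∈ A.image supp, T.card := by omega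
    _ = ∑ T ∈ A.image supp, 2 * T.card := Finset.mul_sum _ _ _
    _ ≤ _ := Finset.sum_le_sum hT

end Pool.Agent.K6.H94.BI
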