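import Mathlib
import Pool.Agent.K6.H94.BI.Comb

/-!
# Commuting triples of operators: a lower bound for the dimension
-/

namespace Pool.Agent.K6.H94.BI

open Module

theorem sum_eq_count {L : Type*} [Field L] [DecidableEq L] {x : L} (s : Multiset L)
    (h : ∀ y ∈ s, y = x ∨ y = 0) (hx : x ≠ 0) : s.sum = (s.count x) • x := by
  induction s using Multiset.induction_on with
  | empty => simp
  | cons a s ih =>
    have h1 := ih (fun y hy => h y (Multiset.mem_cons_of_mem hy))
    rw [Multiset.sum_cons, h1]
    rcases h a (Multiset.mem_cons_self a s) with rfl | rfl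
    · rw [Multiset.count_cons_self, add_smul, one_smul, add_comm]
    · rw [Multiset.count_cons_of_ne hx, zero_add]

variable {L : Type*} [Field L] [IsAlgClosed L] [CharZero L] {E : Type*} [AddCommGroup E]
  [Module L E] [FiniteDimensional L E]

/-- An operator of trace zero with a nonzero eigenvalue has another nonzero eigenvalue. -/
theorem exists_partner (T : End L E) (htr : LinearMap.trace L E T = 0) {x : L}
    (hx : T.HasEigenvalue x) (hx0 : x ≠ 0) : ∃ y, y ≠ x ∧ y ≠ 0 ∧ T.HasEigenvalue y := by
  classical
  by_contra hcon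
  push Not at hcon
  have h1 := Module.End.trace_eq_sum_roots_charpoly_of_splits (IsAlgClosed.splits T.charpoly)
  have h0 : T.charpoly ≠ 0 := (LinearMap.charpoly_monic T).ne_zero
  have hr : ∀ y, y ∈ T.charpoly.roots ↔ T.HasEigenvalue y := by
    intro y
    rw [Polynomial.mem_roots h0, Module.End.hasEigenvalue_iff_isRoot_charpoly]
  have h2 : ∀ y ∈ T.charpoly.roots, y = x ∨ y = 0 := by
    intro y hy
    by_cases hyx : y = x
    · exact Or.inl hyx
    · right
      by_contra hy0
      exact hcon y hyx hy0 ((hr y).1 hy)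
  rw [htr, sum_eq_count _ h2 hx0, eq_comm, smul_eq_zero] at h1
  rcases h1 with h1 | h1
  · rw [Multiset.count_eq_zero] at h1
    exact h1 ((hr x).2 hx)
  · exact hx0 h1

omit [IsAlgClosed L] [CharZero L] [FiniteDimensional L E] in
theorem hasEigenvalue_of_pow (T : End L E) (μ : L) (k : ℕ) (w : E) (hw0 : w ≠ 0)
    (hw : ((T - μ • (1 : End L E)) ^ k) w = 0) : T.HasEigenvalue μ := by
  classical
  intro h5
  have hex : ∃ j, ((T - μ • (1 : End L E)) ^ j) w = 0 := ⟨k, hw⟩
  have h7 := Nat.find_spec hex
  rcases Nat.eq_zero_or_pos (Nat.find hex) with h8 | h8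
  · rw [h8] at h7
    exact hw0 h7
  · have h9 := Nat.find_min hex (Nat.sub_lt h8 one_pos)
    apply h9
    have h10 : ((T - μ • (1 : End L E)) ^ (Nat.find hex - 1)) w ∈ T.eigenspace μ := by
      rw [Module.End.mem_eigenspace_iff, ← sub_eq_zero]
      have h11 : (T - μ • (1 : End L E)) (((T - μ • (1 : End L E)) ^ (Nat.find hex - 1)) w) = 0 := by
        rw [← Module.End.mul_apply, ← pow_succ', Nat.sub_add_cancel h8]
        exact h7
      exact h11
    have h12 : T.eigenspace μ = ⊥ := h5
    rw [h12] at h10
    exact (Submodule.mem_bot L).1 h10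

/-- Let `h a` be commuting operators which are proportional to commutators of operators commuting
with all the other `h b`. If none of the `h a` is nilpotent then the dimension of the space is at
least twice their number. -/
theorem supp_bound {ι : Type*} [Fintype ι] (e f h : ι → End L E) {c : L} (hc : c ≠ 0)
    (hef : ∀ a, e a * f a - f a * e a = c • h a)
    (hhe : ∀ a b, a ≠ b → Commute (h a) (e b)) (hhf : ∀ a b, a ≠ b → Commute (h a) (f b))
    (hhh : ∀ a b, Commute (h a) (h b)) (hnil : ∀ a, ¬ IsNilpotent (h a)) :
    2 * Fintype.card ι ≤ finrank L E := by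
  classical
  let G : (ι → L) → Submodule L E := fun l => ⨅ a, (h a).maxGenEigenspace (l a)
  have hmaps : ∀ i j φ, Set.MapsTo (h i) ((h j).maxGenEigenspace φ) ((h j).maxGenEigenspace φ) :=
    fun i j φ => Module.End.mapsTo_maxGenEigenspace_of_comm (hhh j i) φ
  have hind : iSupIndep G := Module.End.independent_iInf_maxGenEigenspace_of_forall_mapsTo h hmaps
  have htop : ⨆ l, G l = ⊤ := Module.End.iSup_iInf_maxGenEigenspace_eq_top_of_forall_mapsTo h hmaps
    (fun i => Module.End.iSup_maxGenEigenspace_eq_top (h i))
  have hG : ∀ l v, v ∈ G l ↔ ∀ a, v ∈ (h a).maxGenEigenspace (l a) := by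
    intro l v
    exact Submodule.mem_iInf _
  let _ : Fintype {l // G l ≠ ⊥} := hind.fintypeNeBotOfFiniteDimensional
  let A : Finset (ι → L) := Finset.univ.map (Function.Embedding.subtype fun l => G l ≠ ⊥)
  have hA : ∀ l, l ∈ A ↔ G l ≠ ⊥ := by
    intro l
    simp [A]
  have hcard : A.card ≤ finrank L E := by
    rw [Finset.card_map, Finset.card_univ]
    exact hind.subtype_ne_bot_le_finrank
  refine le_trans (two_mul_card_le A ?_ ?_) hcard
  · intro l hl a hla
    rw [hA] at hl
    -- the space of the other weights
    let N : Submodule L E := ⨅ b : {b // b ≠ a}, (h b).maxGenEigenspace (l b)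
    have hN : ∀ v, v ∈ N ↔ ∀ b, b ≠ a → v ∈ (h b).maxGenEigenspace (l b) := by
      intro v
      rw [Submodule.mem_iInf]
      exact ⟨fun h b hb => h ⟨b, hb⟩, fun h b => h b.1 b.2⟩
    have hst : ∀ T : End L E, (∀ b, b ≠ a → Commute (h b) T) → ∀ v ∈ N, T v ∈ N := by
      intro T hT v hv
      rw [hN] at hv ⊢
      intro b hb
      exact Module.End.mapsTo_maxGenEigenspace_of_comm (hT b hb) (l b) (hv b hb)
    have he := hst (e a) (fun b hb => hhe b a hb)
    have hf := hst (f a) (fun b hb => hhf b a hb)
    have hh := hst (h a) (fun b _ => hhh b a)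
    let H : End L N := (h a).restrict hh
    have htr : LinearMap.trace L N H = 0 := by
      have h1 : ((e a).restrict he) * ((f a).restrict hf) - ((f a).restrict hf) * ((e a).restrict he) =
          c • H := by
        ext v
        have h2 := congrArg (fun T : End L E => T v.1) (hef a)
        exact h2
      have h3 := congrArg (LinearMap.trace L N) h1
      rw [map_sub, LinearMap.trace_mul_comm, sub_self, map_smul, smul_eq_mul, eq_comm,
        mul_eq_zero] at h3
      exact h3.resolve_left hc
    -- the weight `l a` occurs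
    obtain ⟨v, hv, hv0⟩ := (Submodule.ne_bot_iff _).1 hl
    rw [hG] at hv
    have hvN : v ∈ N := (hN v).2 fun b _ => hv b
    obtain ⟨k, hk⟩ := (Module.End.mem_maxGenEigenspace _ _ _).1 (hv a)
    have hres : ∀ (y : L) (j : ℕ) (w : N), ((((H - y • (1 : End L N)) ^ j) w : N) : E) =
        ((h a - y • (1 : End L E)) ^ j) (w : E) := by
      intro y j
      induction j with
      | zero => intro w; rfl
      | succ j ih =>
        intro w
        rw [pow_succ, pow_succ, Module.End.mul_apply, Module.End.mul_apply, ih]
        rfl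
    have hev : H.HasEigenvalue (l a) := by
      refine hasEigenvalue_of_pow H (l a) k ⟨v, hvN⟩ (fun h => hv0 (congrArg Subtype.val h)) ?_
      apply Subtype.ext
      rw [hres]
      exact hk
    obtain ⟨y, hy, hy0, hyev⟩ := exists_partner _ htr hev hla
    refine ⟨y, hy, hy0, ?_⟩
    rw [hA, Submodule.ne_bot_iff]
    obtain ⟨w, hw⟩ := hyev.exists_hasEigenvector
    refine ⟨w, ?_, fun h => hw.2 (Subtype.ext h)⟩
    rw [hG]
    intro b
    by_cases hb : b = a
    · subst hb
      rw [Function.update_self, Module.End.mem_maxGenEigenspace]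
      refine ⟨1, ?_⟩
      have h13 := congrArg Subtype.val (Module.End.mem_eigenspace_iff.1 hw.1)
      rw [pow_one, LinearMap.sub_apply, sub_eq_zero]
      exact h13
    · rw [Function.update_of_ne hb]
      exact (hN _).1 w.2 b hb
  · intro a
    by_contra hcon
    push Not at hcon
    apply hnil a
    have h1 : (h a).maxGenEigenspace 0 = ⊤ := by
      rw [eq_top_iff, ← htop]
      refine iSup_le fun l => ?_
      by_cases hl : G l = ⊥
      · rw [hl]
        exact bot_le
      · have h2 := hcon l ((hA l).2 hl)
        rw [← h2]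
        exact iInf_le _ a
    refine ⟨finrank L E, ?_⟩
    ext v
    have h2 : v ∈ (h a).maxGenEigenspace 0 := by rw [h1]; trivial
    rw [Module.End.maxGenEigenspace_eq_genEigenspace_finrank, Module.End.mem_genEigenspace_nat] at h2
    rw [zero_smul, sub_zero] at h2
    exact h2

end Pool.Agent.K6.H94.BI
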