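import Mathlib
import Pool.Agent.K6.H94.BI.Supp
import Pool.Agent.K6.H94.BI.Sym

/-!
# Actions of symplectic Lie algebras on spaces of small dimension
-/

namespace Pool.Agent.K6.H94.BI

open Module

variable {K : Type*} [Field K] {W : Type*} [AddCommGroup W] [Module K W]
  {Q : Type*} [AddCommGroup Q] [Module K Q]

/-- The element `x ↦ ω(u, x) v + ω(v, x) u` of the symplectic Lie algebra. -/
def sy (ω : W →ₗ[K] W →ₗ[K] K) (u v : W) : End K W :=
  (ω u).smulRight v + (ω v).smulRight u

theorem sy_apply (ω : W →ₗ[K] W →ₗ[K] K) (u v x : W) : sy ω u v x = ω u x • v + ω v x • u := rfl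

/-- A bilinear map which is an action of the symplectic Lie algebra. -/
structure IsAct (ω : W →ₗ[K] W →ₗ[K] K) (β : W →ₗ[K] W →ₗ[K] End K Q) : Prop where
  symm : ∀ u v, β u v = β v u
  bracket : ∀ u v w z, β u v * β w z - β w z * β u v = β (sy ω u v w) z + β w (sy ω u v z)

/-- An eigenvector for a nonzero eigenvalue of the commutator with a nilpotent operator vanishes. -/
theorem eq_zero_of_nilpotent (h e : End K Q) {c : K} (hc : c ≠ 0) (hh : IsNilpotent h)
    (he : h * e - e * h = c • e) : e = 0 := by
  have h1 : IsNilpotent (LinearMap.mulLeft K h - LinearMap.mulRight K h) := by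
    refine Commute.isNilpotent_sub (LinearMap.commute_mulLeft_right h h) ?_ ?_
    · obtain ⟨n, hn⟩ := hh
      exact ⟨n, by rw [LinearMap.pow_mulLeft, hn, LinearMap.mulLeft_zero_eq_zero]⟩
    · obtain ⟨n, hn⟩ := hh
      exact ⟨n, by rw [LinearMap.pow_mulRight, hn, LinearMap.mulRight_zero_eq_zero]⟩
  obtain ⟨n, hn⟩ := h1
  have h2 : ∀ n : ℕ, ((LinearMap.mulLeft K h - LinearMap.mulRight K h) ^ n) e = c ^ n • e := by
    intro n
    induction n with
    | zero => simp
    | succ n ih =>
      rw [pow_succ', Module.End.mul_apply, ih, map_smul]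
      have h3 : (LinearMap.mulLeft K h - LinearMap.mulRight K h) e = c • e := he
      rw [h3, smul_smul, ← pow_succ]
  have h4 := h2 n
  rw [hn, LinearMap.zero_apply, eq_comm, smul_eq_zero] at h4
  exact h4.resolve_left (pow_ne_zero n hc)

variable [CharZero K] {ω : W →ₗ[K] W →ₗ[K] K} {β : W →ₗ[K] W →ₗ[K] End K Q}

/-- An action which vanishes on one nonzero element is zero. -/
theorem IsAct.eq_zero (hβ : IsAct ω β) (hnd : ∀ u, (∀ v, ω v u = 0) → u = 0) {e : W}
    (he : e ≠ 0) (h0 : β e e = 0) : β = 0 := by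
  have h2 : (2 : K) ≠ 0 := two_ne_zero
  obtain ⟨a, ha⟩ : ∃ a, ω a e ≠ 0 := by
    by_contra hcon
    push Not at hcon
    exact he (hnd e hcon)
  -- `β e` vanishes on the vectors which are not orthogonal to `e`
  have h1 : ∀ u, ω u e ≠ 0 → β e u = 0 := by
    intro u hu
    have h3 := hβ.bracket u u e e
    rw [h0, mul_zero, zero_mul, sub_zero, sy_apply, ← add_smul, map_smul, map_smul,
      LinearMap.smul_apply, hβ.symm u e, ← add_smul, eq_comm, smul_eq_zero] at h3
    refine h3.resolve_left ?_
    intro h4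
    apply hu
    have h5 : (4 : K) * ω u e = 0 := by linear_combination h4
    exact (mul_eq_zero.1 h5).resolve_left (by norm_num)
  have h3 : ∀ u, β e u = 0 := by
    intro u
    by_cases hu : ω u e = 0
    · have h4 := h1 a ha
      have h5 := h1 (a + u) (by rw [map_add, LinearMap.add_apply, hu, add_zero]; exact ha)
      rw [map_add, h4, zero_add] at h5
      exact h5
    · exact h1 u hu
  have h4 : ∀ x w, (∃ u v, x = sy ω u v e) → β x w = 0 := by
    rintro x w ⟨u, v, rfl⟩
    have h5 := hβ.bracket u v e w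
    rw [h3, mul_zero, zero_mul, sub_zero, h3, add_zero] at h5
    exact h5.symm
  have h5 : ∀ x w, ω x e ≠ 0 → β x w = 0 := by
    intro x w hx
    have h6 := h4 (sy ω x x e) w ⟨x, x, rfl⟩
    rw [sy_apply, ← add_smul, map_smul, LinearMap.smul_apply, smul_eq_zero] at h6
    refine h6.resolve_left ?_
    intro h7
    apply hx
    have h8 : (2 : K) * ω x e = 0 := by linear_combination h7
    exact (mul_eq_zero.1 h8).resolve_left h2
  ext x w : 2
  rw [LinearMap.zero_apply, LinearMap.zero_apply]
  by_cases hx : ω x e = 0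
  · have h6 := h5 a w ha
    have h7 := h5 (a + x) w (by rw [map_add, LinearMap.add_apply, hx, add_zero]; exact ha)
    rw [map_add, LinearMap.add_apply, h6, zero_add] at h7
    exact h7
  · exact h5 x w hx

/-- An action of the symplectic Lie algebra on a space of dimension less than the dimension of the
symplectic space is zero. -/
theorem IsAct.eq_zero_of_small [FiniteDimensional K W] [FiniteDimensional K Q] (hβ : IsAct ω β)
    (halt : ∀ v, ω v v = 0) (hnd : ∀ u, (∀ v, ω v u = 0) → u = 0)
    (hdim : finrank K Q < finrank K W) : β = 0 := by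
  classical
  have hanti := anti halt
  have hnd' : ∀ u, (∀ v, ω u v = 0) → u = 0 := by
    intro u hu
    refine hnd u fun v => ?_
    rw [hanti, hu, neg_zero]
  obtain ⟨k, b, hb⟩ := exists_basis ω halt hnd'
  have hk : finrank K W = 2 * k := by
    rw [Module.finrank_eq_card_basis b, Fintype.card_prod, Fintype.card_fin, Fintype.card_fin,
      mul_comm]
  let E : Fin k → End K Q := fun a => β (b (a, 0)) (b (a, 0))
  let F : Fin k → End K Q := fun a => β (b (a, 1)) (b (a, 1))
  let H : Fin k → End K Q := fun a => β (b (a, 0)) (b (a, 1))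
  have hbr := hβ.bracket
  have hc00 : ∀ a c, ω (b (a, 0)) (b (c, 0)) = 0 := by
    intro a c
    rw [hb]
    by_cases h : a = c <;> simp [Jst, h]
  have hc11 : ∀ a c, ω (b (a, 1)) (b (c, 1)) = 0 := by
    intro a c
    rw [hb]
    by_cases h : a = c <;> simp [Jst, h]
  have hc01 : ∀ a, ω (b (a, 0)) (b (a, 1)) = 1 := by
    intro a
    rw [hb]
    simp [Jst]
  have hc10 : ∀ a, ω (b (a, 1)) (b (a, 0)) = -1 := by
    intro a
    rw [hb]
    simp [Jst]
  have hne : ∀ a c, a ≠ c → ∀ i j, ω (b (a, i)) (b (c, j)) = 0 := by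
    intro a c h i j
    rw [hb]
    simp [Jst, h]
  have hcross : ∀ a c, a ≠ c → ∀ i j i' j', Commute (β (b (a, i)) (b (a, j)))
      (β (b (c, i')) (b (c, j'))) := by
    intro a c h i j i' j'
    have h1 := hbr (b (a, i)) (b (a, j)) (b (c, i')) (b (c, j'))
    simp only [sy_apply, hne a c h, zero_smul, add_zero, map_zero, LinearMap.zero_apply] at h1
    exact sub_eq_zero.1 h1
  have hEF : ∀ a, E a * F a - F a * E a = (4 : K) • H a := by
    intro a
    have h1 := hbr (b (a, 0)) (b (a, 0)) (b (a, 1)) (b (a, 1))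
    change β _ _ * β _ _ - β _ _ * β _ _ = _
    rw [h1]
    simp only [sy_apply, hc01, one_smul, map_add, LinearMap.add_apply]
    rw [hβ.symm (b (a, 1)) (b (a, 0))]
    change H a + H a + (H a + H a) = _
    module
  have hHE : ∀ a, H a * E a - E a * H a = (-2 : K) • E a := by
    intro a
    have h1 := hbr (b (a, 0)) (b (a, 1)) (b (a, 0)) (b (a, 0))
    change β _ _ * β _ _ - β _ _ * β _ _ = _
    rw [h1]
    simp only [sy_apply, hc00, hc10, zero_smul, zero_add, map_smul, LinearMap.smul_apply]
    change (-1 : K) • E a + (-1 : K) • E a = _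
    module
  by_contra hβ0
  -- no `H a` is nilpotent
  have hnil : ∀ a, ¬ IsNilpotent (H a) := by
    intro a ha
    apply hβ0
    exact hβ.eq_zero hnd (b.ne_zero (a, 0)) (eq_zero_of_nilpotent (H a) (E a) (by norm_num) ha
      (hHE a))
  -- extension of scalars
  let L := AlgebraicClosure K
  let T := Module.End.baseChangeHom K L Q
  have hTinj : Function.Injective T := by
    intro x y hxy
    ext v
    have h1 := congrArg (fun f : End L (TensorProduct K L Q) => f (1 ⊗ₜ[K] v)) hxy
    change (1 : L) ⊗ₜ[K] (x v) = (1 : L) ⊗ₜ[K] (y v) at h1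
    exact Module.FaithfullyFlat.tensorProduct_mk_injective (A := K) (B := L) Q h1
  have hfin := supp_bound (L := L) (E := TensorProduct K L Q) (fun a => T (E a)) (fun a => T (F a))
    (fun a => T (H a)) (c := 4) (by norm_num) (fun a => by
      have h1 := congrArg T (hEF a)
      rw [map_sub, map_mul, map_mul, map_smul, ← algebraMap_smul L (4 : K), map_ofNat] at h1
      exact h1)
    (fun a c h => (hcross a c h _ _ _ _).map T) (fun a c h => (hcross a c h _ _ _ _).map T)
    (fun a c => by
      by_cases h : a = c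
      · subst h
        exact Commute.refl _
      · exact (hcross a c h _ _ _ _).map T)
    (fun a ha => hnil a ((IsNilpotent.map_iff hTinj).1 ha))
  rw [Module.finrank_baseChange, Fintype.card_fin] at hfin
  omega

end Pool.Agent.K6.H94.BI
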