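import Mathlib
import Pool.Agent.K6.H94.BI.Act

/-!
# Actions of symplectic Lie algebras on spaces with a filtration with small steps
-/

namespace Pool.Agent.K6.H94.BI

open Module

variable {K : Type*} [Field K] [CharZero K] {W : Type*} [AddCommGroup W] [Module K W]
  {Q : Type*} [AddCommGroup Q] [Module K Q] {ω : W →ₗ[K] W →ₗ[K] K}
  {β : W →ₗ[K] W →ₗ[K] End K Q}

/-- The action on a subquotient of small dimension is zero. -/
theorem IsAct.mem_of_small [FiniteDimensional K W] [FiniteDimensional K Q] (hβ : IsAct ω β)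
    (halt : ∀ v, ω v v = 0) (hnd : ∀ u, (∀ v, ω v u = 0) → u = 0) (P N : Submodule K Q)
    (hPN : P ≤ N) (hP : ∀ u v, ∀ x ∈ P, β u v x ∈ P) (hN : ∀ u v, ∀ x ∈ N, β u v x ∈ N)
    (hdim : finrank K N < finrank K P + finrank K W) (u v : W) (x : Q) (hx : x ∈ N) :
    β u v x ∈ P := by
  let P' : Submodule K N := P.comap N.subtype
  let r : W → W → End K N := fun u v => (β u v).restrict (hN u v)
  have hr : ∀ u v (x : N), ((r u v x : N) : Q) = β u v x := fun u v x => rfl
  have hr' : ∀ u v, P' ≤ P'.comap (r u v) := fun u v x hx => hP u v x hx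
  let γ : W →ₗ[K] W →ₗ[K] End K (N ⧸ P') := LinearMap.mk₂ K
    (fun u v => P'.mapQ P' (r u v) (hr' u v))
    (by
      intro u u' v
      refine Submodule.linearMap_qext _ (LinearMap.ext fun x => ?_)
      change P'.mkQ (r (u + u') v x) = P'.mkQ (r u v x) + P'.mkQ (r u' v x)
      rw [← map_add]
      congr 1
      apply Subtype.ext
      rw [Submodule.coe_add, hr, hr, hr, map_add, LinearMap.add_apply, LinearMap.add_apply])
    (by
      intro c u v
      refine Submodule.linearMap_qext _ (LinearMap.ext fun x => ?_)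
      change P'.mkQ (r (c • u) v x) = c • P'.mkQ (r u v x)
      rw [← map_smul]
      congr 1
      apply Subtype.ext
      rw [Submodule.coe_smul, hr, hr, map_smul, LinearMap.smul_apply, LinearMap.smul_apply])
    (by
      intro u v v'
      refine Submodule.linearMap_qext _ (LinearMap.ext fun x => ?_)
      change P'.mkQ (r u (v + v') x) = P'.mkQ (r u v x) + P'.mkQ (r u v' x)
      rw [← map_add]
      congr 1
      apply Subtype.ext
      rw [Submodule.coe_add, hr, hr, hr, map_add, LinearMap.add_apply])
    (by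
      intro c u v
      refine Submodule.linearMap_qext _ (LinearMap.ext fun x => ?_)
      change P'.mkQ (r u (c • v) x) = c • P'.mkQ (r u v x)
      rw [← map_smul]
      congr 1
      apply Subtype.ext
      rw [Submodule.coe_smul, hr, hr, map_smul, LinearMap.smul_apply])
  have hγ : ∀ u v (x : N), γ u v (P'.mkQ x) = P'.mkQ (r u v x) := fun u v x => rfl
  have hact : IsAct ω γ := by
    constructor
    · intro u v
      refine Submodule.linearMap_qext _ (LinearMap.ext fun x => ?_)
      change γ u v (P'.mkQ x) = γ v u (P'.mkQ x)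
      rw [hγ, hγ]
      congr 1
      apply Subtype.ext
      rw [hr, hr, hβ.symm]
    · intro u v w z
      refine Submodule.linearMap_qext _ (LinearMap.ext fun x => ?_)
      change γ u v (γ w z (P'.mkQ x)) - γ w z (γ u v (P'.mkQ x)) =
        γ (sy ω u v w) z (P'.mkQ x) + γ w (sy ω u v z) (P'.mkQ x)
      rw [hγ, hγ, hγ, hγ, hγ, hγ, ← map_sub, ← map_add]
      congr 1
      apply Subtype.ext
      rw [Submodule.coe_sub, Submodule.coe_add, hr, hr, hr, hr, hr, hr]
      exact congrArg (fun T : End K Q => T x) (hβ.bracket u v w z)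
  have hfr : finrank K (N ⧸ P') < finrank K W := by
    have h1 := Submodule.finrank_quotient_add_finrank P'
    have h2 : finrank K P' = finrank K P := (Submodule.comapSubtypeEquivOfLe hPN).finrank_eq
    omega
  have h0 := hact.eq_zero_of_small halt hnd hfr
  have h1 := hγ u v ⟨x, hx⟩
  rw [h0, LinearMap.zero_apply, LinearMap.zero_apply, LinearMap.zero_apply, eq_comm,
    Submodule.mkQ_apply, Submodule.Quotient.mk_eq_zero] at h1
  exact h1

/-- Every value of an action is a combination of brackets. -/
theorem IsAct.mem_of_bracket (hβ : IsAct ω β)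
    (hnd : ∀ u, (∀ v, ω v u = 0) → u = 0) (T : Submodule K (End K Q))
    (hT : ∀ u v w z, β u v * β w z - β w z * β u v ∈ T) (v w : W) : β v w ∈ T := by
  by_cases hw : w = 0
  · rw [hw, map_zero]
    exact T.zero_mem
  obtain ⟨u, hu⟩ : ∃ u, ω u w = 1 := by
    obtain ⟨a, ha⟩ : ∃ a, ω a w ≠ 0 := by
      by_contra hcon
      push Not at hcon
      exact hw (hnd w hcon)
    refine ⟨(ω a w)⁻¹ • a, ?_⟩
    rw [map_smul, LinearMap.smul_apply, smul_eq_mul]
    exact inv_mul_cancel₀ ha
  have h1 : ∀ v, (2 : K) • (β v w + ω v w • β u w) ∈ T := by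
    intro v
    have h2 := hT u v w w
    rw [hβ.bracket, sy_apply, hu, one_smul, map_add, map_add, LinearMap.add_apply, map_smul,
      map_smul, LinearMap.smul_apply, hβ.symm w v, hβ.symm w u] at h2
    have h3 : (2 : K) • (β v w + ω v w • β u w) =
        β v w + ω v w • β u w + (β v w + ω v w • β u w) := by rw [two_smul]
    rw [h3]
    exact h2
  have h2 : β u w ∈ T := by
    have h3 := h1 u
    rw [hu, one_smul, ← two_smul K, smul_smul] at h3
    exact (T.smul_mem_iff (by norm_num)).1 h3
  have h3 := (T.smul_mem_iff (two_ne_zero (α := K))).1 (h1 v)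
  exact (T.add_mem_iff_left (T.smul_mem _ h2)).1 h3

/-- An action on a space with a stable filtration with small steps is zero. -/
theorem IsAct.eq_zero_of_chain [FiniteDimensional K W] [FiniteDimensional K Q] (hβ : IsAct ω β)
    (halt : ∀ v, ω v v = 0) (hnd : ∀ u, (∀ v, ω v u = 0) → u = 0) (r : ℕ) (c : ℕ → Submodule K Q)
    (h0 : c 0 = ⊥) (hr : c r = ⊤) (hmono : ∀ j < r, c j ≤ c (j + 1))
    (hst : ∀ j u v, ∀ x ∈ c j, β u v x ∈ c j)
    (hdim : ∀ j < r, finrank K (c (j + 1)) < finrank K (c j) + finrank K W) : β = 0 := by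
  have hstep : ∀ u v, ∀ j ≤ r, ∀ x ∈ c j, β u v x ∈ c (j - 1) := by
    intro u v j hj x hx
    rcases j with _ | j
    · exact hst 0 u v x hx
    · exact hβ.mem_of_small halt hnd (c j) (c (j + 1)) (hmono j (by omega)) (hst j) (hst (j + 1))
        (hdim j (by omega)) u v x hx
  have key : ∀ a : ℕ, ∀ u v, ∀ j ≤ r, ∀ x ∈ c j, β u v x ∈ c (j - a) := by
    intro a
    induction a with
    | zero => exact fun u v j _ x hx => hst j u v x hx
    | succ a ih =>
      let T : Submodule K (End K Q) :=
        { carrier := {X | ∀ j ≤ r, ∀ x ∈ c j, X x ∈ c (j - (a + 1))}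
          zero_mem' := fun j _ x _ => Submodule.zero_mem _
          add_mem' := fun hX hY j hj x hx => Submodule.add_mem _ (hX j hj x hx) (hY j hj x hx)
          smul_mem' := fun t X hX j hj x hx => Submodule.smul_mem _ t (hX j hj x hx) }
      have hprod : ∀ u v w z, β u v * β w z ∈ T := by
        intro u v w z j hj x hx
        have h1 := ih u v (j - 1) (by omega) _ (hstep w z j hj x hx)
        rw [Nat.sub_sub, add_comm 1 a] at h1
        exact h1
      intro u v j hj x hx
      exact hβ.mem_of_bracket hnd T (fun u v w z => T.sub_mem (hprod u v w z) (hprod w z u v)) u v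
        j hj x hx
  ext u v x : 3
  have h1 := key r u v r le_rfl x (by rw [hr]; trivial)
  rw [Nat.sub_self, h0, Submodule.mem_bot] at h1
  exact h1

end Pool.Agent.K6.H94.BI
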