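import Mathlib
import Pool.Agent.Y137.MV.Defs

/-!
# Representations with a large unipotent part: definitions
-/

namespace Pool.Agent.K6.H94.BI

open Module Pool.Agent.Y137.MV

variable {K : Type*} [Field K] {V : Type*} [AddCommGroup V] [Module K V]
  {M : Type*} [AddCommGroup M] [Module K M] {Γ : Type*} [Group Γ]

/-- `Y` is a nilpotent endomorphism whose exponential belongs to the image of `ρ`. -/
def IsLog (ρ : Representation K Γ V) (Y : End K V) : Prop :=
  ∃ N : ℕ, Y ^ N = 0 ∧ ∃ s, ρ s = ∑ i ∈ Finset.range N, ((i.factorial : K)⁻¹) • Y ^ i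

/-- The representation `τ` has, over a subgroup of finite index, a filtration by stable subspaces
whose steps have dimension less than `d`. -/
def StepsLT (τ : Representation K Γ M) (d : ℕ) : Prop :=
  ∃ Δ : Subgroup Γ, Δ.FiniteIndex ∧ ∃ (r : ℕ) (c : ℕ → Submodule K M), c 0 = ⊥ ∧ c r = ⊤ ∧
    (∀ j < r, c j ≤ c (j + 1)) ∧ (∀ j, ∀ s ∈ Δ, ∀ x ∈ c j, τ s x ∈ c j) ∧
    ∀ j < r, finrank K (c (j + 1)) < finrank K (c j) + d

/-- The span of the products `B 0 ∧ ... ∧ B (m - 1) ⊗ w` of `m` alternating forms on which a subgroup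
of finite index acts through `χ` and of a vector `w` in `C`. -/
def Generated (ρ : Representation K Γ V) (χ : Γ →* K) (n m : ℕ) (C : Submodule K M) :
    Submodule K ((Fin n → V) [⋀^Fin m × Fin 2]→ₗ[K] M) :=
  Submodule.span K {g | ∃ (B : Fin m → (Fin n → V) [⋀^Fin 2]→ₗ[K] K) (w : M),
    (∀ l, IsTateForm ρ χ (B l)) ∧ w ∈ C ∧
    ∀ v, g v = (∑ σ : Equiv.Perm (Fin m × Fin 2), ((Equiv.Perm.sign σ : ℤ) : K) *
      ∏ l, B l ![v (σ (l, 0)), v (σ (l, 1))]) • w}

/-- `C` consists of vectors on which a subgroup of finite index acts through `χ ^ m`, and it contains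
all vectors on which a subgroup of finite index acts through `χ ^ m` modulo `C`. -/
def IsTateClosed (τ : Representation K Γ M) (χ : Γ →* K) (m : ℕ) (C : Submodule K M) : Prop :=
  (∀ w ∈ C, IsTateVector τ χ m w) ∧
    ∀ w : M, (∃ Δ : Subgroup Γ, Δ.FiniteIndex ∧ ∀ s ∈ Δ, τ s w - χ s ^ m • w ∈ C) → w ∈ C

/-- If `C` is closed in this sense then so is the space generated by the Tate forms of degree two and
by `C`: it contains all alternating maps which are equivariant, over a subgroup of finite index, up to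
maps in this space. -/
def ClosednessSplits (ρ : Representation K Γ V) (χ : Γ →* K) (τ : Representation K Γ M) : Prop :=
  ∀ (n m : ℕ) (C : Submodule K M), IsTateClosed τ χ m C →
    ∀ g : (Fin n → V) [⋀^Fin m × Fin 2]→ₗ[K] M,
      (∃ Δ : Subgroup Γ, Δ.FiniteIndex ∧ ∀ s ∈ Δ, ∃ h ∈ Generated ρ χ n m C,
        ∀ v, τ s (g v) - g (fun l i => ρ s (v l i)) = h v) → g ∈ Generated ρ χ n m C

end Pool.Agent.K6.H94.BI
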