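import Mathlib
import Pool.Agent.K6.H94.BI.Defs

/-!
# The derivation of an equivariant multilinear map along the logarithm of a unipotent element
-/

namespace Pool.Agent.K6.H94.BI

open Module Finset

variable {K : Type*} [Field K] {V : Type*} [AddCommGroup V] [Module K V]
  {M : Type*} [AddCommGroup M] [Module K M]

/-- The powers of the exponential. -/
theorem exp_pow [CharZero K] (Y : End K V) (N : ℕ) (hN : Y ^ N = 0) (m : ℕ) :
    (∑ i ∈ range N, ((i.factorial : K)⁻¹) • Y ^ i) ^ m =
      ∑ i ∈ range N, ((i.factorial : K)⁻¹ * (m : K) ^ i) • Y ^ i := by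
  let _ : Module ℚ (End K V) := Module.compHom (End K V) (algebraMap ℚ K)
  have hq : ∀ (q : ℚ) (X : End K V), q • X = (q : K) • X := fun q X => rfl
  have hexp : ∀ m : ℕ, IsNilpotent.exp ((m : K) • Y) =
      ∑ i ∈ range N, ((i.factorial : K)⁻¹ * (m : K) ^ i) • Y ^ i := by
    intro m
    rw [IsNilpotent.exp_eq_sum (k := N) (by rw [smul_pow, hN, smul_zero])]
    refine sum_congr rfl fun i _ => ?_
    rw [hq, smul_pow, smul_smul]
    push_cast
    rfl
  have h1 : ∀ m : ℕ, IsNilpotent.exp ((m : K) • Y) =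
      (∑ i ∈ range N, ((i.factorial : K)⁻¹) • Y ^ i) ^ m := by
    intro m
    induction m with
    | zero => rw [Nat.cast_zero, zero_smul, pow_zero, IsNilpotent.exp_zero]
    | succ m ih =>
      rw [Nat.cast_succ, add_smul, one_smul, IsNilpotent.exp_add_of_commute
        ((Commute.refl Y).smul_left _) ⟨N, by rw [smul_pow, hN, smul_zero]⟩ ⟨N, hN⟩, ih, pow_succ]
      congr 1
      have h2 := hexp 1
      rw [Nat.cast_one, one_smul] at h2
      rw [h2]
      refine sum_congr rfl fun i _ => ?_
      rw [one_pow, mul_one]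
  rw [← h1, hexp]

/-- Coefficients which extract the linear coefficient of a polynomial from its values. -/
theorem exists_coef [CharZero K] (n : ℕ) (hn : 0 < n) (D : ℕ) :
    ∃ c : ℕ → K, ∀ d ≤ D, ∑ t ∈ range (D + 1), c t * ((n * t : ℕ) : K) ^ d =
      if d = 1 then 1 else 0 := by
  classical
  refine ⟨fun t => (Lagrange.basis (range (D + 1)) (fun t => ((n * t : ℕ) : K)) t).coeff 1,
    fun d hd => ?_⟩
  have hinj : Set.InjOn (fun t => ((n * t : ℕ) : K)) (range (D + 1)) := by
    intro x _ y _ hxy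
    have h1 : n * x = n * y := Nat.cast_injective hxy
    exact Nat.eq_of_mul_eq_mul_left hn h1
  have h1 := Lagrange.eq_interpolate (f := (Polynomial.X ^ d : Polynomial K)) hinj (by
    rw [Polynomial.degree_X_pow, card_range]
    exact_mod_cast Nat.lt_succ_of_le hd)
  have h2 := congrArg (fun f : Polynomial K => f.coeff 1) h1
  simp only [Lagrange.interpolate_apply, Polynomial.finsetSum_coeff, Polynomial.coeff_C_mul,
    Polynomial.eval_pow, Polynomial.eval_X, Polynomial.coeff_X_pow] at h2
  rw [show (if d = 1 then (1 : K) else 0) = if 1 = d then 1 else 0 by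
    by_cases h : d = 1 <;> simp [h, eq_comm]]
  rw [h2]
  exact sum_congr rfl fun t _ => mul_comm _ _

variable {κ : Type*} [Fintype κ] [DecidableEq κ]

/-- The derivation of a multilinear map. -/
def der (φ : MultilinearMap K (fun _ : κ => V) M) (X : End K V) (v : κ → V) : M :=
  ∑ j, φ (Function.update v j (X (v j)))

theorem sum_single (N : ℕ) (F : (κ → Fin (N + 2)) → M) :
    ∑ f : κ → Fin (N + 2), (if ∑ j, (f j : ℕ) = 1 then (1 : K) else 0) • F f =
      ∑ j, F (Function.update (fun _ => 0) j 1) := by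
  have h0 : ∀ j : κ, ∑ i, ((Function.update (fun _ => (0 : Fin (N + 2))) j 1 i : Fin (N + 2)) : ℕ)
      = 1 := by
    intro j
    rw [Finset.sum_eq_single j]
    · rw [Function.update_self]
      rfl
    · intro b _ hb
      rw [Function.update_of_ne hb]
      rfl
    · intro h
      exact absurd (mem_univ _) h
  have hinj : Function.Injective (fun j : κ => Function.update (fun _ => (0 : Fin (N + 2))) j 1) := by
    intro i j hij
    by_contra hne
    have h1 := congrFun hij i
    simp only at h1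
    rw [Function.update_self, Function.update_of_ne hne] at h1
    exact absurd (congrArg Fin.val h1) (by simp)
  have hmap := Finset.sum_map univ (⟨_, hinj⟩ : κ ↪ (κ → Fin (N + 2))) F
  change _ = ∑ j, F (Function.update (fun _ => 0) j 1) at hmap
  rw [← hmap]
  simp only [ite_smul, one_smul, zero_smul]
  rw [← Finset.sum_filter]
  refine sum_congr ?_ fun _ _ => rfl
  ext f
  simp only [mem_filter, mem_univ, true_and, mem_map, Function.Embedding.coeFn_mk]
  constructor
  · intro hf
    obtain ⟨j, hj⟩ : ∃ j, (f j : ℕ) ≠ 0 := by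
      by_contra hcon
      push Not at hcon
      rw [Finset.sum_eq_zero (fun j _ => hcon j)] at hf
      exact zero_ne_one hf
    rw [← Finset.add_sum_erase _ _ (mem_univ j)] at hf
    have h1 : (f j : ℕ) = 1 := by omega
    have h2 : ∑ i ∈ univ.erase j, (f i : ℕ) = 0 := by omega
    rw [Finset.sum_eq_zero_iff] at h2
    refine ⟨j, ?_⟩
    funext i
    by_cases hi : i = j
    · subst hi
      rw [Function.update_self]
      exact Fin.ext (by rw [h1]; rfl)
    · rw [Function.update_of_ne hi]
      exact Fin.ext (by rw [h2 i (by simp [hi])]; rfl)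
  · rintro ⟨j, rfl⟩
    exact h0 j

/-- The exponential of `t Y`. -/
def expo (Y : End K V) (N : ℕ) (t : ℕ) : End K V :=
  ∑ i ∈ range N, ((i.factorial : K)⁻¹ * (t : K) ^ i) • Y ^ i

theorem expo_pow [CharZero K] (Y : End K V) (N : ℕ) (hN : Y ^ N = 0) (k t : ℕ) :
    expo Y N k ^ t = expo Y N (k * t) := by
  unfold expo
  rw [← exp_pow Y N hN k, ← pow_mul, exp_pow Y N hN]

theorem expo_one (Y : End K V) (N : ℕ) :
    expo Y N 1 = ∑ i ∈ range N, ((i.factorial : K)⁻¹) • Y ^ i := by
  unfold expo
  refine sum_congr rfl fun i _ => ?_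
  rw [Nat.cast_one, one_pow, mul_one]

theorem expo_mono (Y : End K V) (N N' : ℕ) (hN : Y ^ N = 0) (h : N ≤ N') (t : ℕ) :
    expo Y N' t = expo Y N t := by
  unfold expo
  symm
  refine sum_subset (range_mono h) fun i _ hi => ?_
  rw [mem_range, not_lt] at hi
  rw [pow_eq_zero_of_le hi hN, smul_zero]

/-- The derivation along a nilpotent endomorphism is a combination of the translates by the powers of
its exponential. -/
theorem der_eq_sum [CharZero K] (φ : MultilinearMap K (fun _ : κ => V) M) {Y : End K V} {N : ℕ}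
    (hN : Y ^ N = 0) {k : ℕ} (hk : 0 < k) : ∃ (D : ℕ) (c : ℕ → K), 1 ≤ D ∧
      (∀ d ≤ D, ∑ t ∈ range (D + 1), c t * ((k * t : ℕ) : K) ^ d = if d = 1 then 1 else 0) ∧
      ∀ v, der φ Y v = ∑ t ∈ range (D + 1), c t • φ (fun j => expo Y N (k * t) (v j)) := by
  obtain ⟨c, hc⟩ := exists_coef (K := K) k hk (Fintype.card κ * (N + 2) + 1)
  refine ⟨Fintype.card κ * (N + 2) + 1, c, by omega, hc, fun v => ?_⟩
  have h1 : ∀ t : ℕ, φ (fun j => expo Y N (k * t) (v j)) = ∑ f : κ → Fin (N + 2),
      ((k * t : ℕ) : K) ^ (∑ j, (f j : ℕ)) • ((∏ j, (((f j : ℕ).factorial : K)⁻¹)) •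
        φ (fun j => (Y ^ (f j : ℕ)) (v j))) := by
    intro t
    have h2 : ∀ j, expo Y N (k * t) (v j) = ∑ i : Fin (N + 2),
        ((((i : ℕ).factorial : K)⁻¹) * ((k * t : ℕ) : K) ^ (i : ℕ)) • (Y ^ (i : ℕ)) (v j) := by
      intro j
      rw [← expo_mono Y N (N + 2) hN (by omega)]
      unfold expo
      rw [Finset.sum_range, LinearMap.sum_apply]
      rfl
    simp only [h2]
    rw [φ.map_sum (fun j (i : Fin (N + 2)) =>
      ((((i : ℕ).factorial : K)⁻¹) * ((k * t : ℕ) : K) ^ (i : ℕ)) • (Y ^ (i : ℕ)) (v j))]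
    refine sum_congr rfl fun f _ => ?_
    rw [φ.map_smul_univ (fun j => (((f j : ℕ).factorial : K)⁻¹) * ((k * t : ℕ) : K) ^ (f j : ℕ))
      (fun j => (Y ^ (f j : ℕ)) (v j)), prod_mul_distrib, prod_pow_eq_pow_sum, smul_smul,
      mul_comm]
  simp only [h1, smul_sum]
  rw [sum_comm]
  have h3 : ∀ f : κ → Fin (N + 2), ∑ t ∈ range (Fintype.card κ * (N + 2) + 1 + 1),
      c t • ((k * t : ℕ) : K) ^ (∑ j, (f j : ℕ)) • ((∏ j, (((f j : ℕ).factorial : K)⁻¹)) •
        φ (fun j => (Y ^ (f j : ℕ)) (v j))) =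
      (if ∑ j, (f j : ℕ) = 1 then (1 : K) else 0) • ((∏ j, (((f j : ℕ).factorial : K)⁻¹)) •
        φ (fun j => (Y ^ (f j : ℕ)) (v j))) := by
    intro f
    rw [← hc (∑ j, (f j : ℕ)) (by
      have h4 : ∑ j, (f j : ℕ) ≤ Fintype.card κ * (N + 2) := by
        calc ∑ j, (f j : ℕ) ≤ ∑ _j : κ, (N + 2) := sum_le_sum fun j _ => (f j).2.le
          _ = Fintype.card κ * (N + 2) := by rw [sum_const, card_univ, smul_eq_mul]
      omega), sum_smul]
    refine sum_congr rfl fun t _ => ?_
    rw [smul_smul]
  rw [sum_congr rfl fun f _ => h3 f, sum_single]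
  refine sum_congr rfl fun j _ => ?_
  have h4 : ∏ i, ((((Function.update (fun _ => (0 : Fin (N + 2))) j 1 i : Fin (N + 2)) :
      ℕ).factorial : K)⁻¹) = 1 := by
    refine prod_eq_one fun i _ => ?_
    by_cases hi : i = j
    · subst hi
      rw [Function.update_self]
      simp
    · rw [Function.update_of_ne hi]
      simp
  rw [h4, one_smul]
  congr 1
  funext i
  by_cases hi : i = j
  · subst hi
    rw [Function.update_self, Function.update_self]
    simp
  · rw [Function.update_of_ne hi, Function.update_of_ne hi]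
    simp

/-- The derivation along a nilpotent endomorphism, if the translation by its exponential is given by an
operator on the target. -/
theorem exists_op [CharZero K] (φ : MultilinearMap K (fun _ : κ => V) M) {Y : End K V} {N : ℕ}
    (hN : Y ^ N = 0) {k : ℕ} (hk : 0 < k) (T : End K M)
    (hT : ∀ v, φ (fun j => expo Y N k (v j)) = T (φ v)) :
    ∃ B ∈ Submodule.span K (Set.range fun t : ℕ => T ^ t), ∀ v, der φ Y v = B (φ v) := by
  obtain ⟨D, c, -, -, hc⟩ := der_eq_sum φ hN hk
  refine ⟨∑ t ∈ range (D + 1), c t • T ^ t, ?_, fun v => ?_⟩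
  · exact Submodule.sum_mem _ fun t _ => Submodule.smul_mem _ _ (Submodule.subset_span ⟨t, rfl⟩)
  · rw [hc, LinearMap.sum_apply]
    refine sum_congr rfl fun t ht => ?_
    clear ht
    rw [LinearMap.smul_apply]
    congr 1
    rw [← expo_pow Y N hN]
    induction t with
    | zero => rfl
    | succ t ih =>
      rw [pow_succ', pow_succ', Module.End.mul_apply, ← ih]
      exact hT _

/-- The derivation along a nilpotent endomorphism, if the map is invariant under its exponential up to
an invariant map. -/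
theorem der_of_shift [CharZero K] (φ ψ : MultilinearMap K (fun _ : κ => V) M) {Y : End K V} {N : ℕ}
    (hN : Y ^ N = 0) {k : ℕ} (hk : 0 < k)
    (hφ : ∀ v, φ (fun j => expo Y N k (v j)) = φ v + ψ v)
    (hψ : ∀ v, ψ (fun j => expo Y N k (v j)) = ψ v) (v : κ → V) :
    der φ Y v = (k : K)⁻¹ • ψ v := by
  obtain ⟨D, c, hD, hc, hc'⟩ := der_eq_sum φ hN hk
  have h1 : ∀ (t : ℕ) (v : κ → V), φ (fun j => expo Y N (k * t) (v j)) = φ v + (t : K) • ψ v ∧
      ψ (fun j => expo Y N (k * t) (v j)) = ψ v := by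
    intro t
    induction t with
    | zero =>
      intro v
      have h2 : ∀ x, expo Y N (k * 0) x = x := by
        intro x
        rw [← expo_pow Y N hN, pow_zero]
        rfl
      simp only [h2]
      exact ⟨by rw [Nat.cast_zero, zero_smul, add_zero], trivial⟩
    | succ t ih =>
      intro v
      have h2 : ∀ x, expo Y N (k * (t + 1)) x = expo Y N k (expo Y N (k * t) x) := by
        intro x
        rw [← expo_pow Y N hN, pow_succ', expo_pow Y N hN]
        rfl
      simp only [h2]
      rw [hφ (fun j => expo Y N (k * t) (v j)), hψ (fun j => expo Y N (k * t) (v j)), (ih v).1,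
        (ih v).2]
      refine ⟨?_, rfl⟩
      push_cast
      rw [add_smul, one_smul]
      abel
  rw [hc']
  have h2 : ∀ t ∈ range (D + 1), c t • φ (fun j => expo Y N (k * t) (v j)) =
      (c t * ((k * t : ℕ) : K) ^ 0) • φ v +
      (c t * ((k * t : ℕ) : K) ^ 1) • ((k : K)⁻¹ • ψ v) := by
    intro t _
    rw [(h1 t v).1, smul_add, pow_zero, mul_one, pow_one, smul_smul, smul_smul]
    congr 2
    push_cast
    have hk' : (k : K) ≠ 0 := Nat.cast_ne_zero.2 hk.ne'
    field_simp
  rw [sum_congr rfl h2, sum_add_distrib, ← sum_smul, ← sum_smul, hc 0 (by omega), hc 1 hD,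
    if_neg zero_ne_one, if_pos rfl, zero_smul, zero_add, one_smul]

end Pool.Agent.K6.H94.BI
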