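import Mathlib
import Pool.Agent.K6.H94.BI.Ext
import Pool.Agent.K6.H94.BI.Chain

/-!
# The action of the symplectic Lie algebra on the span of the values of an equivariant map
-/

namespace Pool.Agent.K6.H94.BI

open Module Finset

variable {K : Type*} [Field K] {V : Type*} [AddCommGroup V] [Module K V]
  {M : Type*} [AddCommGroup M] [Module K M] {κ : Type*} [Fintype κ] [DecidableEq κ]

theorem der_add (φ : MultilinearMap K (fun _ : κ => V) M) (X Y : End K V) (v : κ → V) :
    der φ (X + Y) v = der φ X v + der φ Y v := by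
  unfold der
  rw [← sum_add_distrib]
  exact sum_congr rfl fun j _ => by rw [LinearMap.add_apply, MultilinearMap.map_update_add]

theorem der_smul (φ : MultilinearMap K (fun _ : κ => V) M) (t : K) (X : End K V) (v : κ → V) :
    der φ (t • X) v = t • der φ X v := by
  unfold der
  rw [smul_sum]
  exact sum_congr rfl fun j _ => by rw [LinearMap.smul_apply, MultilinearMap.map_update_smul]

theorem der_zero (φ : MultilinearMap K (fun _ : κ => V) M) (v : κ → V) :
    der φ (0 : End K V) v = 0 := by
  have h1 := der_smul φ (0 : K) (0 : End K V) v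
  rw [zero_smul, zero_smul] at h1
  exact h1

/-- The commutator of two derivations. -/
theorem der_comm (φ : MultilinearMap K (fun _ : κ => V) M) (X Y : End K V) (v : κ → V) :
    (∑ i, der φ X (Function.update v i (Y (v i)))) - (∑ i, der φ Y (Function.update v i (X (v i)))) =
      der φ (X * Y - Y * X) v := by
  unfold der
  rw [sum_comm (f := fun i j => φ (Function.update (Function.update v i (X (v i))) j
    (Y (Function.update v i (X (v i)) j))))]
  rw [← sum_sub_distrib]
  refine sum_congr rfl fun i _ => ?_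
  rw [← sum_sub_distrib, Finset.sum_eq_single i]
  · rw [Function.update_idem, Function.update_idem, Function.update_self, Function.update_self,
      ← MultilinearMap.map_update_sub]
    rfl
  · intro j _ hj
    rw [Function.update_of_ne hj, Function.update_of_ne hj.symm, Function.update_comm hj.symm,
      sub_self]
  · intro h
    exact absurd (mem_univ _) h

variable (φ : MultilinearMap K (fun _ : κ => V) M) (𝒜 : Submodule K (End K M))

/-- The endomorphisms the derivation along which is given by an operator in `𝒜`. -/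
def opSpace : Submodule K (End K V) where
  carrier := {X | ∃ B ∈ 𝒜, ∀ v, der φ X v = B (φ v)}
  zero_mem' := ⟨0, 𝒜.zero_mem, fun v => der_zero φ v⟩
  add_mem' := by
    rintro X Y ⟨B, hB, hX⟩ ⟨C, hC, hY⟩
    exact ⟨B + C, 𝒜.add_mem hB hC, fun v => by rw [der_add, hX, hY]; rfl⟩
  smul_mem' := by
    rintro t X ⟨B, hB, hX⟩
    exact ⟨t • B, 𝒜.smul_mem t hB, fun v => by rw [der_smul, hX]; rfl⟩

/-- The span of the values. -/
abbrev spn : Submodule K M := Submodule.span K (Set.range φ)

theorem exists_act : ∃ A : opSpace φ 𝒜 →ₗ[K] End K (spn φ),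
    ∀ X, ∃ B ∈ 𝒜, (∀ v, der φ X.1 v = B (φ v)) ∧ ∀ x, ((A X x : spn φ) : M) = B x := by
  choose B hB hB' using fun X : opSpace φ 𝒜 => X.2
  have hst : ∀ X, ∀ x ∈ Submodule.span K (Set.range φ), B X x ∈ Submodule.span K (Set.range φ) := by
    intro X x hx
    induction hx using Submodule.span_induction with
    | mem x hx =>
      obtain ⟨v, rfl⟩ := hx
      rw [← hB']
      exact Submodule.sum_mem _ fun j _ => Submodule.subset_span ⟨_, rfl⟩
    | zero => rw [map_zero]; exact Submodule.zero_mem _
    | add x y _ _ hx hy => rw [map_add]; exact Submodule.add_mem _ hx hy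
    | smul t x _ hx => rw [map_smul]; exact Submodule.smul_mem _ t hx
  refine ⟨{ toFun := fun X => (B X).restrict (hst X), map_add' := ?_, map_smul' := ?_ },
    fun X => ⟨B X, hB X, hB' X, fun x => rfl⟩⟩
  · intro X Y
    ext ⟨x, hx⟩
    change B (X + Y) x = B X x + B Y x
    induction hx using Submodule.span_induction with
    | mem x hx =>
      obtain ⟨v, rfl⟩ := hx
      rw [← hB', ← hB', ← hB']
      exact der_add φ _ _ v
    | zero => rw [map_zero, map_zero, map_zero, add_zero]
    | add x y _ _ hx hy => rw [map_add, map_add, map_add, hx, hy]; abel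
    | smul t x _ hx => rw [map_smul, map_smul, map_smul, hx, smul_add]
  · intro t X
    ext ⟨x, hx⟩
    change B (t • X) x = t • B X x
    induction hx using Submodule.span_induction with
    | mem x hx =>
      obtain ⟨v, rfl⟩ := hx
      rw [← hB', ← hB']
      exact der_smul φ t _ v
    | zero => rw [map_zero, map_zero, smul_zero]
    | add x y _ _ hx hy => rw [map_add, map_add, hx, hy, smul_add]
    | smul s x _ hx => rw [map_smul, map_smul, hx, smul_comm]

variable [CharZero K] [FiniteDimensional K V] [FiniteDimensional K M] {φ 𝒜}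

/-- **The derivations of an equivariant multilinear map along the symplectic Lie algebra vanish if the
target has a filtration with small steps.** -/
theorem der_eq_zero (ω : V →ₗ[K] V →ₗ[K] K) (halt : ∀ v, ω v v = 0) (W : Submodule K V)
    (hnd : ∀ u ∈ W, (∀ v ∈ W, ω v u = 0) → u = 0)
    (hW : ∀ u ∈ W, ∀ v ∈ W, sy ω u v ∈ opSpace φ 𝒜)
    (r : ℕ) (c : ℕ → Submodule K M) (h0 : c 0 = ⊥) (hr : c r = ⊤) (hmono : ∀ j < r, c j ≤ c (j + 1))
    (hst : ∀ j, ∀ B ∈ 𝒜, ∀ x ∈ c j, B x ∈ c j)
    (hdim : ∀ j < r, finrank K (c (j + 1)) < finrank K (c j) + finrank K W)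
    (u v : V) (hu : u ∈ W) (hv : v ∈ W) (x : κ → V) : der φ (sy ω u v) x = 0 := by
  obtain ⟨A, hA⟩ := exists_act φ 𝒜
  let ωW : W →ₗ[K] W →ₗ[K] K := ω.domRestrict₁₂ W W
  have hωW : ∀ u v : W, ωW u v = ω u v := fun u v => rfl
  -- the action is determined by its values on the values of `φ`
  have hext : ∀ T T' : End K (spn φ), (∀ v, T ⟨φ v, Submodule.subset_span ⟨v, rfl⟩⟩ =
      T' ⟨φ v, Submodule.subset_span ⟨v, rfl⟩⟩) → T = T' := by
    intro T T' h
    refine LinearMap.ext fun y => ?_
    obtain ⟨y, hy⟩ := y
    induction hy using Submodule.span_induction with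
    | mem y hy =>
      obtain ⟨v, rfl⟩ := hy
      exact h v
    | zero =>
      have h1 : (⟨0, Submodule.zero_mem _⟩ : spn φ) = 0 := rfl
      rw [h1, map_zero, map_zero]
    | add y z hy' hz' hy hz =>
      have h1 : (⟨y + z, Submodule.add_mem _ hy' hz'⟩ : spn φ) = ⟨y, hy'⟩ + ⟨z, hz'⟩ := rfl
      rw [h1, map_add, map_add, hy, hz]
    | smul t y hy' hy =>
      have h1 : (⟨t • y, Submodule.smul_mem _ t hy'⟩ : spn φ) = t • ⟨y, hy'⟩ := rfl
      rw [h1, map_smul, map_smul, hy]
  have hval : ∀ X v, ((A X ⟨φ v, Submodule.subset_span ⟨v, rfl⟩⟩ : spn φ) : M) = der φ X.1 v := by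
    intro X v
    obtain ⟨B, -, hB1, hB2⟩ := hA X
    rw [hB2, hB1]
  -- products of operators
  have hmul : ∀ X Y v, ((A X (A Y ⟨φ v, Submodule.subset_span ⟨v, rfl⟩⟩) : spn φ) : M) =
      ∑ i, der φ X.1 (Function.update v i (Y.1 (v i))) := by
    intro X Y v
    obtain ⟨B, -, hB1, hB2⟩ := hA X
    rw [hB2, hval]
    unfold der
    rw [map_sum]
    exact sum_congr rfl fun i _ => (hB1 _).symm
  have hcomm : ∀ X Y Z : opSpace φ 𝒜, X.1 * Y.1 - Y.1 * X.1 = Z.1 → A X * A Y - A Y * A X = A Z := by
    intro X Y Z hZ
    refine hext _ _ fun v => Subtype.ext ?_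
    rw [hval, ← hZ, ← der_comm, ← hmul, ← hmul]
    rfl
  let B : W → W → End K (spn φ) := fun u v => A ⟨sy ω u v, hW u u.2 v v.2⟩
  let β : W →ₗ[K] W →ₗ[K] End K (spn φ) := LinearMap.mk₂ K B
    (by
      intro u u' v
      change A _ = A _ + A _
      rw [← map_add]
      congr 1
      apply Subtype.ext
      ext x
      change sy ω (u + u' : W) v x = sy ω u v x + sy ω u' v x
      simp only [sy_apply, Submodule.coe_add, map_add, LinearMap.add_apply, smul_add, add_smul]
      abel)
    (by
      intro t u v
      change A _ = t • A _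
      rw [← map_smul]
      congr 1
      apply Subtype.ext
      ext x
      change sy ω (t • u : W) v x = t • sy ω u v x
      simp only [sy_apply, Submodule.coe_smul, map_smul, LinearMap.smul_apply, smul_add, smul_smul,
        smul_eq_mul, mul_comm])
    (by
      intro u v v'
      change A _ = A _ + A _
      rw [← map_add]
      congr 1
      apply Subtype.ext
      ext x
      change sy ω u (v + v' : W) x = sy ω u v x + sy ω u v' x
      simp only [sy_apply, Submodule.coe_add, map_add, LinearMap.add_apply, smul_add, add_smul]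
      abel)
    (by
      intro t u v
      change A _ = t • A _
      rw [← map_smul]
      congr 1
      apply Subtype.ext
      ext x
      change sy ω u (t • v : W) x = t • sy ω u v x
      simp only [sy_apply, Submodule.coe_smul, map_smul, LinearMap.smul_apply, smul_add, smul_smul,
        smul_eq_mul, mul_comm])
  have hβ : ∀ u v, β u v = A ⟨sy ω u v, hW u u.2 v v.2⟩ := fun u v => rfl
  have hact : IsAct ωW β := by
    constructor
    · intro u v
      rw [hβ, hβ]
      congr 1
      apply Subtype.ext
      ext x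
      change sy ω u v x = sy ω v u x
      rw [sy_apply, sy_apply, add_comm]
    · intro u v w z
      rw [hβ, hβ, hβ, hβ, ← map_add]
      apply hcomm
      ext x
      have hanti := anti halt
      change sy ω u v (sy ω w z x) - sy ω w z (sy ω u v x) = sy ω (sy ωW u v w : W) z x +
        sy ω w (sy ωW u v z : W) x
      have e1 : ((sy ωW u v w : W) : V) = ω u w • (v : V) + ω v w • (u : V) := rfl
      have e2 : ((sy ωW u v z : W) : V) = ω u z • (v : V) + ω v z • (u : V) := rfl
      rw [e1, e2]
      simp only [sy_apply, map_add, map_smul, LinearMap.add_apply, LinearMap.smul_apply, smul_eq_mul]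
      rw [hanti v w, hanti u w, hanti v z, hanti u z]
      module
  -- the filtration
  let cS : ℕ → Submodule K (spn φ) := fun j => (c j).comap (spn φ).subtype
  have hfr : ∀ j, finrank K (cS j) = finrank K (spn φ ⊓ c j : Submodule K M) := by
    intro j
    have h1 : (cS j).map (spn φ).subtype = spn φ ⊓ c j := Submodule.map_comap_subtype (spn φ) (c j)
    rw [← h1]
    exact (LinearEquiv.finrank_eq (Submodule.equivMapOfInjective (spn φ).subtype
      (Submodule.injective_subtype (spn φ)) (cS j)))
  have hβ0 : β = 0 := by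
    refine hact.eq_zero_of_chain (fun v => halt v) (fun u hu => Subtype.ext (hnd u u.2
      fun v hv => hu ⟨v, hv⟩)) r cS ?_ ?_ ?_ ?_ ?_
    · change (c 0).comap (spn φ).subtype = ⊥
      rw [h0, Submodule.comap_bot, Submodule.ker_subtype]
    · change (c r).comap (spn φ).subtype = ⊤
      rw [hr, Submodule.comap_top]
    · exact fun j hj => Submodule.comap_mono (hmono j hj)
    · intro j u v x hx
      obtain ⟨B, hB, -, hB2⟩ := hA ⟨sy ω u v, hW u u.2 v v.2⟩
      change ((β u v x : spn φ) : M) ∈ c j
      rw [hβ, hB2]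
      exact hst j B hB _ hx
    · intro j hj
      rw [hfr, hfr]
      have h1 := Submodule.finrank_sup_add_finrank_inf_eq (spn φ ⊓ c (j + 1)) (c j)
      have h2 : (spn φ ⊓ c (j + 1)) ⊓ c j = spn φ ⊓ c j := by
        rw [inf_assoc, inf_eq_right.2 (hmono j hj)]
      have h3 : (spn φ ⊓ c (j + 1)) ⊔ c j ≤ c (j + 1) := sup_le inf_le_right (hmono j hj)
      have h4 := Submodule.finrank_mono h3
      have h5 := hdim j hj
      rw [h2] at h1
      omega
  have h1 := hval ⟨sy ω u v, hW u hu v hv⟩ x
  have h2 : A ⟨sy ω u v, hW u hu v hv⟩ = 0 := by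
    have h3 := hβ ⟨u, hu⟩ ⟨v, hv⟩
    rw [hβ0] at h3
    exact h3.symm
  rw [h2] at h1
  exact h1.symm

end Pool.Agent.K6.H94.BI
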