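import Mathlib
import Pool.Agent.K6.H94.BI.Mult
import Pool.Agent.H204R3.GP.TateG

/-!
# Forms killed by the symplectic Lie algebras of an orthogonal decomposition
-/

set_option linter.unusedSectionVars false

namespace Pool.Agent.K6.H94.BI

open Module Pool.Agent.H204R3.CM Pool.Agent.H204R3.SP Pool.Agent.H204R3.GP

variable {K : Type*} [Field K] {V : Type*} [AddCommGroup V] [Module K V]
  [FiniteDimensional K V]

/-- The involution of the index set of a symplectic basis. -/
def flip {ι : Type*} {k : ι → ℕ} (x : Σ i, Fin (k i) × Fin 2) : Σ i, Fin (k i) × Fin 2 :=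
  ⟨x.1, (x.2.1, 1 - x.2.2)⟩

/-- The sign of an index of a symplectic basis. -/
def sgn (K : Type*) [Field K] {ι : Type*} {k : ι → ℕ} (x : Σ i, Fin (k i) × Fin 2) : K :=
  if x.2.2 = 0 then 1 else -1

theorem flip_flip {ι : Type*} {k : ι → ℕ} (x : Σ i, Fin (k i) × Fin 2) : flip (flip x) = x := by
  obtain ⟨i, a, s⟩ := x
  unfold flip
  simp

theorem flip_ne {ι : Type*} {k : ι → ℕ} (x : Σ i, Fin (k i) × Fin 2) : flip x ≠ x := by
  obtain ⟨i, a, s⟩ := x
  intro h
  unfold flip at h
  simp only [Sigma.mk.injEq, heq_eq_eq, Prod.mk.injEq, true_and] at h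
  revert h
  fin_cases s <;> decide

theorem sgn_flip {ι : Type*} {k : ι → ℕ} (x : Σ i, Fin (k i) × Fin 2) :
    sgn K (flip x) = -sgn K x := by
  obtain ⟨i, a, s⟩ := x
  unfold sgn flip
  fin_cases s <;> simp

theorem sgn_ne_zero {ι : Type*} {k : ι → ℕ} (x : Σ i, Fin (k i) × Fin 2) : sgn K x ≠ 0 := by
  unfold sgn
  split_ifs <;> simp

variable {ι : Type*} [Fintype ι] [DecidableEq ι] (ω : V →ₗ[K] V →ₗ[K] K)
  (halt : ∀ v, ω v v = 0) (hnd : ∀ u, (∀ v, ω v u = 0) → u = 0) (W : ι → Submodule K V)
  (hspan : ⨆ i, W i = ⊤) (horth : ∀ i j, i ≠ j → ∀ u ∈ W i, ∀ v ∈ W j, ω u v = 0)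

include hnd hspan horth in
theorem nondeg_part (i : ι) : ∀ u ∈ W i, (∀ v ∈ W i, ω v u = 0) → u = 0 := by
  intro u hu h
  apply hnd
  have h1 : (⊤ : Submodule K V) ≤ LinearMap.ker (ω.flip u) := by
    rw [← hspan]
    refine iSup_le fun j v hv => ?_
    rw [LinearMap.mem_ker, LinearMap.flip_apply]
    by_cases hj : j = i
    · subst hj
      exact h v hv
    · exact horth j i hj v hv u hu
  intro v
  exact h1 (x := v) trivial

include hnd hspan horth in
theorem indep : iSupIndep W := by
  intro i
  rw [disjoint_iff, Submodule.eq_bot_iff]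
  rintro u ⟨hu, hu'⟩
  refine nondeg_part ω hnd W hspan horth i u hu fun v hv => ?_
  have h1 : (⨆ (j : ι) (_ : j ≠ i), W j) ≤ LinearMap.ker (ω v) := by
    refine iSup_le fun j => iSup_le fun hj w hw => ?_
    rw [LinearMap.mem_ker]
    exact horth i j hj.symm v hv w hw
  exact h1 hu'

include halt hnd hspan horth in
/-- A symplectic basis adapted to the decomposition. -/
theorem exists_adapted : ∃ (k : ι → ℕ) (e : Basis (Σ i, Fin (k i) × Fin 2) K V),
    (∀ x, e x ∈ W x.1) ∧ (∀ x y, ω (e x) (e y) = JJ flip (sgn K) x y) ∧
    ∀ i, W i ≤ Submodule.span K (e '' {x | x.1 = i}) := by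
  classical
  have hanti := anti halt
  have hb : ∀ i, ∃ k, ∃ b : Basis (Fin k × Fin 2) K (W i), ∀ x y,
      ω (b x : V) (b y : V) = Jst K x y := by
    intro i
    obtain ⟨k, b, hb⟩ := exists_basis (ω.domRestrict₁₂ (W i) (W i)) (fun v => halt v) (by
      intro u hu
      apply Subtype.ext
      refine nondeg_part ω hnd W hspan horth i u u.2 fun v hv => ?_
      rw [hanti]
      have h1 : ω u v = 0 := hu ⟨v, hv⟩
      rw [h1, neg_zero])
    exact ⟨k, b, hb⟩
  choose k b hb using hb
  have hint := DirectSum.isInternal_submodule_of_iSupIndep_of_iSup_eq_top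
    (indep ω hnd W hspan horth) hspan
  refine ⟨k, hint.collectedBasis b, fun x => hint.collectedBasis_mem b x, fun x y => ?_,
    fun i => ?_⟩
  · rw [hint.collectedBasis_coe]
    obtain ⟨i, a, s⟩ := x
    obtain ⟨j, c, t⟩ := y
    unfold JJ
    by_cases hij : i = j
    · subst hij
      simp only [hb, Jst, flip, sgn, Sigma.mk.injEq, heq_eq_eq, Prod.mk.injEq, true_and]
      by_cases hac : a = c
      · subst hac
        fin_cases s <;> fin_cases t <;> simp
      · rw [if_neg hac, if_neg (fun h => hac h.1.symm)]
    · rw [if_neg]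
      · exact horth i j hij _ (b i (a, s)).2 _ (b j (c, t)).2
      · intro h
        exact hij (congrArg Sigma.fst h).symm
  · intro v hv
    have h1 := (b i).mem_span ⟨v, hv⟩
    have h2 := Submodule.mem_map_of_mem (f := (W i).subtype) h1
    rw [Submodule.map_span] at h2
    refine Submodule.span_mono ?_ h2
    rintro _ ⟨_, ⟨x, rfl⟩, rfl⟩
    refine ⟨⟨i, x⟩, rfl, ?_⟩
    rw [hint.collectedBasis_coe]
    rfl

variable [CharZero K]

include halt hnd hspan horth in
/-- **Forms in an even number of variables killed by the symplectic Lie algebras are combinations of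
products of Tate forms of degree two.** -/
theorem mem_PT {Γ : Type*} [Group Γ] (ρ : Representation K Γ V) (χ : Γ →* K)
    (hωρ : ∀ s u v, ω (ρ s u) (ρ s v) = χ s * ω u v) (hstab : ∀ i s, ∀ v ∈ W i, ρ s v ∈ W i)
    {m : ℕ} (φ : MultilinearMap K (fun _ : Fin m × Fin 2 => V) K)
    (hφ : ∀ i, ∀ u ∈ W i, ∀ v ∈ W i, ∀ x, der φ (sy ω u v) x = 0) :
    φ ∈ Submodule.span K (PT ρ χ m) := by
  classical
  obtain ⟨k, e, heW, hω, hW⟩ := exists_adapted ω halt hnd W hspan horth
  let R := Σ i, Fin (k i) × Fin 2
  let cls : R → ι := Sigma.fst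
  let inv : R → R := flip
  let jj : R → K := sgn K
  have hinv : ∀ x, inv (inv x) = x := flip_flip
  have hjj : ∀ x, jj (inv x) = -jj x := sgn_flip
  have hj0 : ∀ x, jj x ≠ 0 := sgn_ne_zero
  have hclsinv : ∀ x, cls (inv x) = cls x := fun x => rfl
  have hcls : ∀ x y, cls x = cls y → cls (inv x) = cls (inv y) := fun x y h => h
  -- the projections
  have hPC' : ∀ (c j : ι), ∀ v ∈ Submodule.span K (e '' {x | x.1 = j}),
      PC e cls c v = if j = c then v else 0 := by
    intro c j v hv
    induction hv using Submodule.span_induction with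
    | mem v hv =>
      obtain ⟨z, hz, rfl⟩ := hv
      rw [PC_basis]
      have h1 : cls z = j := hz
      rw [h1]
    | zero => rw [map_zero]; split_ifs <;> rfl
    | add a b _ _ ha hb =>
      rw [map_add, ha, hb]
      split_ifs
      · rfl
      · rw [add_zero]
    | smul c' a _ ha =>
      rw [map_smul, ha]
      split_ifs
      · rfl
      · rw [smul_zero]
  have hPC : ∀ (c j : ι), ∀ v ∈ W j, PC e cls c v = if j = c then v else 0 :=
    fun c j v hv => hPC' c j v (hW j hv)
  let BC : ι → (V →ₗ[K] V →ₗ[K] K) := fun c => ω.comp (PC e cls c)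
  have hBC : ∀ c, IsTate2 ρ χ (BC c) := by
    intro c
    refine ⟨⊤, inferInstance, fun s _ u v => ?_⟩
    have h1 : ∀ v, PC e cls c (ρ s v) = ρ s (PC e cls c v) := by
      have h2 : (PC e cls c).comp (ρ s) = (ρ s).comp (PC e cls c) := by
        refine e.ext fun y => ?_
        rw [LinearMap.comp_apply, LinearMap.comp_apply, hPC c y.1 (ρ s (e y)) (hstab _ s _ (heW y)),
          PC_basis]
        change (if y.1 = c then _ else _) = ρ s (if y.1 = c then _ else _)
        split_ifs
        · rfl
        · rw [map_zero]
      exact fun v => congrArg (fun T : Module.End K V => T v) h2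
    change ω (PC e cls c (ρ s u)) (ρ s v) = χ s * ω (PC e cls c u) v
    rw [h1, hωρ]
  have hBC' : ∀ c x y, BC c (e x) (e y) = if cls x = c then JJ inv jj x y else 0 := by
    intro c x y
    change ω (PC e cls c (e x)) (e y) = _
    rw [PC_basis]
    split_ifs
    · rw [hω]
    · rw [map_zero, LinearMap.zero_apply]
  -- coefficients
  let coef : MultilinearMap K (fun _ : Fin m × Fin 2 => V) K →ₗ[K] ((Fin m × Fin 2 → R) → K) :=
    { toFun := fun φ I => φ (fun k => e (I k))
      map_add' := fun _ _ => rfl
      map_smul' := fun _ _ => rfl }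
  have hinj : Function.Injective coef := fun φ φ' h =>
    Basis.ext_multilinear (fun _ => e) fun I => congrFun h I
  have hrel : ∀ b c, cls (inv b) = cls c → ∀ I : Fin m × Fin 2 → R,
      ∑ k, (JJ inv jj b (I k) * coef φ (Function.update I k c) +
        JJ inv jj c (I k) * coef φ (Function.update I k b)) = 0 := by
    intro b c hbc I
    have hbW : e b ∈ W c.1 := by
      have h2 := heW b
      rw [show b.1 = c.1 from hbc] at h2
      exact h2
    have h3 := hφ c.1 (e b) hbW (e c) (heW c) (fun k => e (I k))
    rw [← h3]
    unfold der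
    refine Finset.sum_congr rfl fun k _ => ?_
    rw [sy_apply, hω, hω, MultilinearMap.map_update_add, MultilinearMap.map_update_smul,
      MultilinearMap.map_update_smul, smul_eq_mul, smul_eq_mul]
    have h4 : ∀ z : R, coef φ (Function.update I k z) =
        φ (Function.update (fun k => e (I k)) k (e z)) := by
      intro z
      change φ (fun l => e (Function.update I k z l)) = _
      congr 1
      funext l
      by_cases hl : l = k
      · subst hl
        rw [Function.update_self, Function.update_self]
      · rw [Function.update_of_ne hl, Function.update_of_ne hl]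
    rw [h4, h4]
  let F : (Fin m × Fin 2 → ι) → ((Fin m × Fin 2 → R) → K) := fun t I =>
    if (fun k => cls (I k)) = t then coef φ I else 0
  have hF : coef φ = ∑ t, F t := by
    funext I
    rw [Finset.sum_apply]
    simp only [F]
    rw [Finset.sum_ite_eq, if_pos (Finset.mem_univ _)]
  have hFt : ∀ t, F t ∈ InvG cls inv jj (Fin m × Fin 2) t := by
    intro t
    refine ⟨fun b c hbc I => ?_, fun I hI k => ?_⟩
    · have htype : ∀ (k : Fin m × Fin 2) (z : R), cls (I k) = cls z →
          (fun l => cls (Function.update I k z l)) = fun l => cls (I l) := by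
        intro k z hz
        funext l
        by_cases hl : l = k
        · subst hl
          rw [Function.update_self, hz]
        · rw [Function.update_of_ne hl]
      have h1 : ∀ k, JJ inv jj b (I k) * F t (Function.update I k c) +
          JJ inv jj c (I k) * F t (Function.update I k b) =
          if (fun k => cls (I k)) = t then JJ inv jj b (I k) * coef φ (Function.update I k c) +
            JJ inv jj c (I k) * coef φ (Function.update I k b) else 0 := by
        intro k
        have e1 : JJ inv jj b (I k) * F t (Function.update I k c) =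
            if (fun k => cls (I k)) = t then JJ inv jj b (I k) *
              coef φ (Function.update I k c) else 0 := by
          by_cases h : I k = inv b
          · have h2 := htype k c (by rw [h, hbc])
            simp only [F]
            rw [h2]
            split_ifs
            · rfl
            · rw [mul_zero]
          · have h2 : JJ inv jj b (I k) = 0 := by
              unfold JJ
              rw [if_neg h]
            rw [h2, zero_mul, zero_mul]
            split_ifs <;> rfl
        have e2 : JJ inv jj c (I k) * F t (Function.update I k b) =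
            if (fun k => cls (I k)) = t then JJ inv jj c (I k) *
              coef φ (Function.update I k b) else 0 := by
          by_cases h : I k = inv c
          · have h2 := htype k b (by rw [h, ← hcls _ _ hbc, hinv])
            simp only [F]
            rw [h2]
            split_ifs
            · rfl
            · rw [mul_zero]
          · have h2 : JJ inv jj c (I k) = 0 := by
              unfold JJ
              rw [if_neg h]
            rw [h2, zero_mul, zero_mul]
            split_ifs <;> rfl
        rw [e1, e2]
        split_ifs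
        · rfl
        · rw [add_zero]
      rw [Finset.sum_congr rfl (fun k _ => h1 k)]
      by_cases hI : (fun k => cls (I k)) = t
      · simp only [if_pos hI]
        exact hrel b c hbc I
      · simp only [if_neg hI]
        exact Finset.sum_const_zero
    · by_contra h
      apply hI
      simp only [F]
      rw [if_neg]
      rintro rfl
      exact h rfl
  have h1 : coef φ ∈ MatG cls inv jj (Fin m × Fin 2) m := by
    rw [hF]
    exact Submodule.sum_mem _ fun t _ => fftG hinv hjj hj0 hcls m (Fin m × Fin 2)
      (by simp [mul_comm]) t (hFt t)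
  have h3 : MatG cls inv jj (Fin m × Fin 2) m ≤ (Submodule.span K (PT ρ χ m)).map coef := by
    unfold MatG
    rw [Submodule.span_le]
    rintro _ ⟨σ, c, rfl⟩
    refine ⟨mmG σ (fun l => BC (c l)), Submodule.subset_span ⟨σ, _, fun l => hBC _, rfl⟩, ?_⟩
    funext I
    change mmG σ (fun l => BC (c l)) (fun k => e (I k)) = _
    rw [mmG_apply]
    exact Finset.prod_congr rfl fun s _ => hBC' _ _ _
  obtain ⟨φ', hφ', hφφ⟩ := h3 h1
  rw [← hinj hφφ]
  exact hφ'

include halt hnd hspan horth in
/-- Forms in an odd number of variables killed by the symplectic Lie algebras vanish. -/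
theorem odd_eq_zero {κ : Type*} [Fintype κ] [DecidableEq κ] (hκ : Odd (Fintype.card κ))
    (φ : MultilinearMap K (fun _ : κ => V) K)
    (hφ : ∀ i, ∀ u ∈ W i, ∀ v ∈ W i, ∀ x, der φ (sy ω u v) x = 0) : φ = 0 := by
  classical
  obtain ⟨k, e, heW, hω, -⟩ := exists_adapted ω halt hnd W hspan horth
  refine Basis.ext_multilinear (fun _ => e) fun I => ?_
  change φ (fun i => e (I i)) = 0
  by_contra h0
  have hcard : ∀ x, (Finset.univ.filter fun l => I l = x).card =
      (Finset.univ.filter fun l => I l = flip x).card := by
    intro x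
    have hfx : e (flip x) ∈ W x.1 := heW (flip x)
    have h1 := hφ x.1 (e x) (heW x) (e (flip x)) hfx (fun l => e (I l))
    have h2 : ∀ l, φ (Function.update (fun l => e (I l)) l (sy ω (e x) (e (flip x)) (e (I l)))) =
        ((if I l = flip x then sgn K x else 0) - (if I l = x then sgn K x else 0)) *
          φ (fun l => e (I l)) := by
      intro l
      rw [sy_apply, hω, hω]
      unfold JJ
      rw [flip_flip, sgn_flip]
      by_cases h3 : I l = flip x
      · have h4 : I l ≠ x := by
          rw [h3]
          exact flip_ne x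
        simp only [h4, if_false]
        rw [if_pos h3, zero_smul, add_zero, ← h3, MultilinearMap.map_update_smul,
          Function.update_eq_self, sub_zero, smul_eq_mul]
      · by_cases h4 : I l = x
        · simp only [h3, if_false]
          rw [if_pos h4, if_pos h4, zero_smul, zero_add]
          have h5 : e x = e (I l) := by rw [h4]
          rw [h5, MultilinearMap.map_update_smul, Function.update_eq_self, zero_sub, smul_eq_mul]
        · simp only [h3, h4, if_false]
          rw [zero_smul, zero_smul, add_zero, sub_zero, zero_mul]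
          exact φ.map_coord_zero l (Function.update_self _ _ _)
    unfold der at h1
    rw [Finset.sum_congr rfl fun l _ => h2 l, ← Finset.sum_mul, mul_eq_zero, or_iff_left h0,
      Finset.sum_sub_distrib, ← Finset.sum_filter, ← Finset.sum_filter, Finset.sum_const,
      Finset.sum_const, nsmul_eq_mul, nsmul_eq_mul, ← sub_mul, mul_eq_zero,
      or_iff_left (sgn_ne_zero x), sub_eq_zero, Nat.cast_inj] at h1
    exact h1.symm
  have h1 : Fintype.card κ = ∑ x : Σ i, Fin (k i) × Fin 2, (Finset.univ.filter fun l => I l = x).card := by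
    rw [← Finset.card_univ, Finset.card_eq_sum_card_fiberwise (f := I) (t := Finset.univ)
      (fun _ _ => Finset.mem_coe.2 (Finset.mem_univ _))]
  have h2 : Even (∑ x : Σ i, Fin (k i) × Fin 2, (Finset.univ.filter fun l => I l = x).card) := by
    rw [Fintype.sum_sigma]
    refine Finset.even_sum _ fun i _ => ?_
    rw [Fintype.sum_prod_type]
    refine Finset.even_sum _ fun a _ => ?_
    rw [Fin.sum_univ_two]
    have h3 := hcard ⟨i, (a, 0)⟩
    have h4 : flip (⟨i, (a, 0)⟩ : Σ i, Fin (k i) × Fin 2) = ⟨i, (a, 1)⟩ := rfl
    rw [h4] at h3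
    rw [h3]
    exact ⟨_, rfl⟩
  rw [← h1] at h2
  exact (Nat.not_even_iff_odd.2 hκ) h2

end Pool.Agent.K6.H94.BI
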