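import Mathlib
import Pool.Agent.K6.H94.BI.Gen
import Pool.Agent.Y137.MV.AltM
import Pool.Agent.Y137.SL.Defs

/-!
# The splitting of the classes for representations with large unipotent part
-/

set_option linter.unusedSectionVars false

namespace Pool.Agent.K6.H94.BI

open Module Pool.Agent.H204R3.CM Pool.Agent.H204R3.SP Pool.Agent.H204R3.GP
open Pool.Agent.Y137.MV (IsEquivariant IsTateForm IsTateVector IsProduct Wedges Products
  alt_of_comp final_step wedge_tate)

variable {K : Type*} [Field K] [CharZero K] {V : Type*} [AddCommGroup V] [Module K V]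
  {M : Type*} [AddCommGroup M] [Module K M] {Γ : Type*} [Group Γ]
  {κ : Type*} [Fintype κ] [DecidableEq κ]

/-- The rank one operators of a subspace belong to the span of the logarithms. -/
theorem sy_mem (ω : V →ₗ[K] V →ₗ[K] K) (W : Submodule K V) (T : Submodule K (End K V))
    (h : ∀ v ∈ W, (ω v).smulRight v ∈ T) : ∀ u ∈ W, ∀ v ∈ W, sy ω u v ∈ T := by
  intro u hu v hv
  have h1 := T.sub_mem (T.sub_mem (h (u + v) (W.add_mem hu hv)) (h u hu)) (h v hv)
  have h2 : (ω (u + v)).smulRight (u + v) - (ω u).smulRight u - (ω v).smulRight v = sy ω u v := by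
    ext x
    simp only [LinearMap.sub_apply, LinearMap.smulRight_apply, sy_apply, map_add,
      LinearMap.add_apply]
    module
  rw [h2] at h1
  exact h1

/-- The derivations of an equivariant map along the logarithms are given by operators. -/
theorem log_mem {ρ : Representation K Γ V} {τ : Representation K Γ M} {Δ : Subgroup Γ}
    (hΔ : Δ.FiniteIndex) (φ : MultilinearMap K (fun _ : κ => V) M)
    (hφ : ∀ s ∈ Δ, ∀ v, φ (fun j => ρ s (v j)) = τ s (φ v)) :
    Submodule.span K {Y | IsLog ρ Y} ≤ opSpace φ (Submodule.span K (τ '' (Δ : Set Γ))) := by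
  rw [Submodule.span_le]
  rintro Y ⟨N, hN, s, hs⟩
  obtain ⟨n, hn, -, hsn⟩ := Subgroup.exists_pow_mem_of_index_ne_zero hΔ.index_ne_zero s
  obtain ⟨B, hB, hB'⟩ := exists_op φ hN hn (τ (s ^ n)) (fun v => by
    rw [← hφ _ hsn, map_pow, hs, ← expo_one, expo_pow Y N hN, one_mul])
  refine ⟨B, ?_, hB'⟩
  refine (Submodule.span_mono ?_) hB
  rintro _ ⟨t, rfl⟩
  refine ⟨(s ^ n) ^ t, Δ.pow_mem hsn t, ?_⟩
  change τ ((s ^ n) ^ t) = (τ (s ^ n)) ^ t
  rw [map_pow]

/-- **The derivations of an equivariant multilinear map along the symplectic Lie algebras vanish.** -/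
theorem der_zero_of_steps [FiniteDimensional K V] [FiniteDimensional K M]
    {ρ : Representation K Γ V} {τ : Representation K Γ M} (ω : V →ₗ[K] V →ₗ[K] K)
    (halt : ∀ v, ω v v = 0) (W : Submodule K V)
    (hnd : ∀ u ∈ W, (∀ v ∈ W, ω v u = 0) → u = 0)
    (hbig : ∀ v ∈ W, (ω v).smulRight v ∈ Submodule.span K {Y | IsLog ρ Y})
    (hsm : StepsLT τ (finrank K W)) (φ : MultilinearMap K (fun _ : κ => V) M)
    (hφ : ∃ Δ : Subgroup Γ, Δ.FiniteIndex ∧ ∀ s ∈ Δ, ∀ v, φ (fun j => ρ s (v j)) = τ s (φ v)) :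
    ∀ u ∈ W, ∀ v ∈ W, ∀ x, der φ (sy ω u v) x = 0 := by
  obtain ⟨Δ₁, hΔ₁, hφ⟩ := hφ
  obtain ⟨Δ₂, hΔ₂, r, c, h0, hr, hmono, hst, hdim⟩ := hsm
  have hΔ : (Δ₁ ⊓ Δ₂).FiniteIndex := inferInstance
  have h1 := log_mem hΔ φ (fun s hs => hφ s (Subgroup.mem_inf.1 hs).1)
  intro u hu v hv x
  refine der_eq_zero (𝒜 := Submodule.span K (τ '' ((Δ₁ ⊓ Δ₂ : Subgroup Γ) : Set Γ))) ω halt W hnd
    (sy_mem ω W _ fun w hw => h1 (hbig w hw)) r c h0 hr hmono ?_ hdim u v hu hv x
  intro j B hB x hx
  induction hB using Submodule.span_induction with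
  | mem B hB =>
    obtain ⟨s, hs, rfl⟩ := hB
    exact hst j s (Subgroup.mem_inf.1 hs).2 x hx
  | zero => exact Submodule.zero_mem _
  | add A B _ _ hA hB => exact Submodule.add_mem _ hA hB
  | smul t A _ hA => exact Submodule.smul_mem _ t hA

theorem der_comp (φ : MultilinearMap K (fun _ : κ => V) M) (l : M →ₗ[K] K) (X : End K V)
    (v : κ → V) : der (l.compMultilinearMap φ) X v = l (der φ X v) := by
  unfold der
  rw [map_sum]
  rfl

/-- The components of an alternating equivariant map are equivariant. -/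
theorem component_eqv {ρ : Representation K Γ V} {τ : Representation K Γ M} {κ : Type} {n : ℕ}
    {f : (Fin n → V) [⋀^κ]→ₗ[K] M} (hf : IsEquivariant ρ τ f) (c : κ → Fin n) :
    ∃ Δ : Subgroup Γ, Δ.FiniteIndex ∧ ∀ s ∈ Δ, ∀ v : κ → V,
      (f.toMultilinearMap.compLinearMap
        (fun l => LinearMap.single K (fun _ : Fin n => V) (c l))) (fun j => ρ s (v j)) =
      τ s ((f.toMultilinearMap.compLinearMap
        (fun l => LinearMap.single K (fun _ : Fin n => V) (c l))) v) := by
  obtain ⟨Δ, hΔ, hf⟩ := hf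
  refine ⟨Δ, hΔ, fun s hs v => ?_⟩
  have h1 := hf s hs (fun l => Pi.single (c l) (v l))
  change f (fun l => Pi.single (c l) (ρ s (v l))) = τ s (f (fun l => Pi.single (c l) (v l)))
  rw [← h1]
  congr 1
  funext l i
  by_cases hi : i = c l
  · subst hi
    rw [Pi.single_eq_same, Pi.single_eq_same]
  · rw [Pi.single_eq_of_ne hi, Pi.single_eq_of_ne hi, map_zero]

/-- An alternating map is determined by its components. -/
theorem eq_zero_of_component {n : ℕ} {κ : Type} [Fintype κ] [DecidableEq κ]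
    (g : (Fin n → V) [⋀^κ]→ₗ[K] M)
    (h : ∀ c : κ → Fin n, g.toMultilinearMap.compLinearMap
      (fun l => LinearMap.single K (fun _ : Fin n => V) (c l)) = 0) : g = 0 := by
  ext v
  have h1 : v = fun l => ∑ i, Pi.single i (v l i) := by
    funext l
    exact (Finset.univ_sum_single (v l)).symm
  have h2 : g v = ∑ c : κ → Fin n,
      g.toMultilinearMap.compLinearMap
        (fun l => LinearMap.single K (fun _ : Fin n => V) (c l)) (fun l => v l (c l)) := by
    conv_lhs => rw [h1]
    exact g.toMultilinearMap.map_sum (fun l i => Pi.single i (v l i))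
  rw [h2]
  refine Finset.sum_eq_zero fun c _ => ?_
  rw [h c]
  rfl

variable [FiniteDimensional K V] [FiniteDimensional K M]

/-- **The splitting of the classes.** -/
theorem classesSplit (ρ : Representation K Γ V) (τ : Representation K Γ M) (χ : Γ →* K)
    (ω : V →ₗ[K] V →ₗ[K] K) (halt : ∀ v, ω v v = 0) (hnd : ∀ u, (∀ v, ω v u = 0) → u = 0)
    (hωρ : ∀ s u v, ω (ρ s u) (ρ s v) = χ s * ω u v)
    {ι : Type*} [Fintype ι] (W : ι → Submodule K V) (hspan : ⨆ i, W i = ⊤)
    (horth : ∀ i j, i ≠ j → ∀ u ∈ W i, ∀ v ∈ W j, ω u v = 0)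
    (hstab : ∀ i s, ∀ v ∈ W i, ρ s v ∈ W i)
    (hbig : ∀ i, ∀ v ∈ W i, (ω v).smulRight v ∈ Submodule.span K {Y | IsLog ρ Y})
    (hsm : ∀ i, StepsLT τ (finrank K (W i))) : Pool.Agent.Y137.SL.ClassesSplit ρ χ τ := by
  classical
  have key : ∀ {κ : Type} [Fintype κ] [DecidableEq κ] (φ : MultilinearMap K (fun _ : κ => V) M),
      (∃ Δ : Subgroup Γ, Δ.FiniteIndex ∧ ∀ s ∈ Δ, ∀ v, φ (fun j => ρ s (v j)) = τ s (φ v)) →
      ∀ i, ∀ u ∈ W i, ∀ v ∈ W i, ∀ x, der φ (sy ω u v) x = 0 := by
    intro κ _ _ φ hφ i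
    exact der_zero_of_steps ω halt (W i) (nondeg_part ω hnd W hspan horth i) (hbig i) (hsm i) φ hφ
  constructor
  · intro n m g hg
    have h1 := final_step ρ χ τ g hg (fun l => alt_of_comp ρ χ _ (fun c => by
      refine mem_PT ω halt hnd W hspan horth ρ χ hωρ hstab _ fun i u hu v hv x => ?_
      have h2 := key _ (component_eqv hg c) i u hu v hv x
      have h3 := der_comp (g.toMultilinearMap.compLinearMap
        (fun l => LinearMap.single K (fun _ : Fin n => V) (c l))) l (sy ω u v) x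
      rw [h2, map_zero] at h3
      exact h3))
    refine Submodule.span_mono ?_ h1
    rintro x ⟨y, ⟨B, hB, hy⟩, w, hw, hx⟩
    refine ⟨B, w, hB, hw, fun v => ?_⟩
    rw [hx, hy]
  · intro n m g hg
    refine eq_zero_of_component g fun c => ?_
    ext v
    rw [← sub_eq_zero, ← Module.forall_dual_apply_eq_zero_iff K]
    intro l
    have h3 := odd_eq_zero ω halt hnd W hspan horth (κ := Fin (2 * m + 1)) (by
      rw [Fintype.card_fin]
      exact ⟨m, rfl⟩) (l.compMultilinearMap (g.toMultilinearMap.compLinearMap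
        (fun l => LinearMap.single K (fun _ : Fin n => V) (c l)))) (fun i u hu v hv x => by
      rw [der_comp, key _ (component_eqv hg c) i u hu v hv x, map_zero])
    have h4 := congrArg (fun f : MultilinearMap K (fun _ : Fin (2 * m + 1) => V) K => f v) h3
    have h5 : l ((g.toMultilinearMap.compLinearMap
        (fun l => LinearMap.single K (fun _ : Fin n => V) (c l))) v) = 0 := h4
    rw [sub_eq_add_neg, map_add, h5, zero_add, map_neg, neg_eq_zero]
    exact map_zero l

end Pool.Agent.K6.H94.BI
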