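import Mathlib
import Pool.Agent.K6.H94.BI.Split

/-!
# Preparations for open subvarieties
-/

set_option linter.unusedSectionVars false

namespace Pool.Agent.K6.H94.BI

open Module Pool.Agent.H204R3.CM Pool.Agent.H204R3.SP Pool.Agent.H204R3.GP
open Pool.Agent.Y137.MV (IsEquivariant IsTateForm IsTateVector IsProduct Wedges Products
  alt_of_comp final_step wedge_tate)

variable {K : Type*} [Field K] {V : Type*} [AddCommGroup V] [Module K V]
  {M : Type*} [AddCommGroup M] [Module K M] {Γ : Type*} [Group Γ]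

/-- A common subgroup of finite index. -/
theorem exists_common {X : Type*} [AddCommGroup X] [Module K X] (T : Submodule K X) (hT : T.FG)
    (P : Subgroup Γ → Submodule K X) (hP : ∀ Δ Δ', Δ' ≤ Δ → P Δ ≤ P Δ')
    (h : ∀ x ∈ T, ∃ Δ : Subgroup Γ, Δ.FiniteIndex ∧ x ∈ P Δ) :
    ∃ Δ : Subgroup Γ, Δ.FiniteIndex ∧ T ≤ P Δ := by
  classical
  obtain ⟨S, rfl⟩ := hT
  choose Δ hΔ hx using fun x : S => h x (Submodule.subset_span x.2)
  refine ⟨⨅ x, Δ x, Subgroup.finiteIndex_iInf hΔ, ?_⟩
  rw [Submodule.span_le]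
  intro x hxS
  exact hP _ _ (iInf_le Δ ⟨x, hxS⟩) (hx ⟨x, hxS⟩)

/-- The multiplier of a unipotent element is one. -/
theorem multiplier_eq_one [Nontrivial V] (ω : V →ₗ[K] V →ₗ[K] K)
    (hnd : ∀ u, (∀ v, ω v u = 0) → u = 0) (halt : ∀ v, ω v v = 0) (U : End K V) (c : K)
    (hU : ∀ u v, ω (U u) (U v) = c * ω u v) {Y : End K V} {N : ℕ} (hN : Y ^ N = 0)
    (hUY : U = ∑ i ∈ Finset.range N, ((i.factorial : K)⁻¹) • Y ^ i) : c = 1 := by
  classical
  have hanti := anti halt
  have hN0 : N ≠ 0 := by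
    rintro rfl
    rw [pow_zero] at hN
    exact one_ne_zero hN
  -- a vector killed by `Y`
  obtain ⟨v, hv0, hv⟩ : ∃ v : V, v ≠ 0 ∧ Y v = 0 := by
    by_contra hcon
    push Not at hcon
    have hinj : ∀ v, Y v = 0 → v = 0 := fun v hv => by
      by_contra h0
      exact hcon v h0 hv
    have h1 : ∀ (n : ℕ) v, (Y ^ n) v = 0 → v = 0 := by
      intro n
      induction n with
      | zero => exact fun v hv => hv
      | succ n ih =>
        intro v hv
        rw [pow_succ', Module.End.mul_apply] at hv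
        exact ih v (hinj _ hv)
    obtain ⟨w, hw⟩ := exists_ne (0 : V)
    exact hw (h1 N w (by rw [hN]; rfl))
  have hsum : ∀ x : V, Y x = 0 → U x = x := by
    intro x hx
    rw [hUY, LinearMap.sum_apply, Finset.sum_eq_single 0]
    · simp
    · intro i _ hi
      obtain ⟨j, rfl⟩ := Nat.exists_eq_succ_of_ne_zero hi
      rw [LinearMap.smul_apply, pow_succ, Module.End.mul_apply, hx, map_zero, smul_zero]
    · intro h
      exact absurd (Finset.mem_range.2 (Nat.pos_of_ne_zero hN0)) h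
  have hUv : U v = v := hsum v hv
  -- the functional
  have hex : ∃ j, ∀ u, ω v ((Y ^ j) u) = 0 := ⟨N, fun u => by rw [hN, LinearMap.zero_apply, map_zero]⟩
  have h7 := Nat.find_spec hex
  have h8 : Nat.find hex ≠ 0 := by
    intro h8
    rw [h8] at h7
    apply hv0
    apply hnd
    intro u
    have h12 : ω v u = 0 := h7 u
    rw [hanti, h12, neg_zero]
  obtain ⟨j, hj⟩ := Nat.exists_eq_succ_of_ne_zero h8
  have h9 := Nat.find_min hex (m := j) (by omega)
  push Not at h9
  obtain ⟨u, hu⟩ := h9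
  rw [hj] at h7
  have h10 : ω v (U ((Y ^ j) u)) = ω v ((Y ^ j) u) := by
    rw [hUY, LinearMap.sum_apply, map_sum, Finset.sum_eq_single 0]
    · simp
    · intro i _ hi
      obtain ⟨i, rfl⟩ := Nat.exists_eq_succ_of_ne_zero hi
      have h11 : (Y ^ (i + 1)) ((Y ^ j) u) = (Y ^ (j + 1)) ((Y ^ i) u) := by
        rw [← Module.End.mul_apply, ← Module.End.mul_apply, ← pow_add, ← pow_add]
        congr 2
        omega
      rw [LinearMap.smul_apply, map_smul, h11, h7, smul_zero]
    · intro h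
      exact absurd (Finset.mem_range.2 (Nat.pos_of_ne_zero hN0)) h
  have h11 := hU v ((Y ^ j) u)
  rw [hUv, h10] at h11
  have h12 : (c - 1) * ω v ((Y ^ j) u) = 0 := by linear_combination -h11
  exact sub_eq_zero.1 ((mul_eq_zero.1 h12).resolve_right hu)

variable [CharZero K]

/-- An alternating map all of whose scalar components are combinations of wedge products, expanded in
linearly independent wedge products. -/
theorem expand [FiniteDimensional K V] [FiniteDimensional K M] (ρ : Representation K Γ V)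
    (χ : Γ →* K) {n m : ℕ} (f : (Fin n → V) [⋀^Fin m × Fin 2]→ₗ[K] M)
    (hc : ∀ l : M →ₗ[K] K, l.compAlternatingMap f ∈ Submodule.span K (Wedges ρ χ n m)) :
    ∃ (S : Set ((Fin n → V) [⋀^Fin m × Fin 2]→ₗ[K] K)) (_ : Fintype S)
      (w : S → M), S ⊆ Wedges ρ χ n m ∧
      LinearIndependent K ((↑) : S → ((Fin n → V) [⋀^Fin m × Fin 2]→ₗ[K] K)) ∧
      ∀ v, f v = ∑ g : S, (g : (Fin n → V) [⋀^Fin m × Fin 2]→ₗ[K] K) v • w g := by
  classical
  obtain ⟨S, hS1, hS2, hS3⟩ := exists_linearIndependent K (Wedges ρ χ (V := V) n m)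
  have hfin : Finite S := hS3.finite
  have hft : Fintype S := Fintype.ofFinite S
  let BS : Basis S K (Submodule.span K (Set.range ((↑) : S → ((Fin n → V) [⋀^Fin m × Fin 2]→ₗ[K] K)))) :=
    Basis.span hS3
  have hrange : Submodule.span K (Set.range ((↑) : S → ((Fin n → V) [⋀^Fin m × Fin 2]→ₗ[K] K))) =
      Submodule.span K (Wedges ρ χ n m) := by
    rw [Subtype.range_coe, hS2]
  let T : Dual K M →ₗ[K]
      (Submodule.span K (Set.range ((↑) : S → ((Fin n → V) [⋀^Fin m × Fin 2]→ₗ[K] K)))) :=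
    { toFun := fun l => ⟨l.compAlternatingMap f, by rw [hrange]; exact hc l⟩
      map_add' := fun l l' => Subtype.ext (AlternatingMap.ext fun v => rfl)
      map_smul' := fun c l => Subtype.ext (AlternatingMap.ext fun v => rfl) }
  let w : S → M := fun g => (Module.evalEquiv K M).symm ((BS.coord g).comp T)
  have hw : ∀ g (l : Dual K M), l (w g) = BS.coord g (T l) := by
    intro g l
    have h1 := Module.apply_evalEquiv_symm_apply K M l ((BS.coord g).comp T)
    exact h1
  refine ⟨S, hft, w, hS1, hS3, fun v => ?_⟩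
  rw [← sub_eq_zero, ← Module.forall_dual_apply_eq_zero_iff K]
  intro l
  rw [map_sub, map_sum, sub_eq_zero]
  have h1 : l (f v) = ((T l : Submodule.span K (Set.range ((↑) : S →
      ((Fin n → V) [⋀^Fin m × Fin 2]→ₗ[K] K)))) : (Fin n → V) [⋀^Fin m × Fin 2]→ₗ[K] K) v := rfl
  rw [h1]
  conv_lhs => rw [← BS.sum_repr (T l)]
  have h2 : ∀ g : S, ((BS g : Submodule.span K (Set.range ((↑) : S →
      ((Fin n → V) [⋀^Fin m × Fin 2]→ₗ[K] K)))) : (Fin n → V) [⋀^Fin m × Fin 2]→ₗ[K] K) =
      (g : (Fin n → V) [⋀^Fin m × Fin 2]→ₗ[K] K) := by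
    intro g
    exact congrArg Subtype.val (Basis.span_apply hS3 g)
  rw [Submodule.coe_sum]
  have h3 : ∀ G : S → ((Fin n → V) [⋀^Fin m × Fin 2]→ₗ[K] K), (∑ g, G g) v = ∑ g, G g v := by
    intro G
    exact map_sum ({ toFun := fun F => F v
                     map_zero' := rfl
                     map_add' := fun _ _ => rfl } :
      ((Fin n → V) [⋀^Fin m × Fin 2]→ₗ[K] K) →+ K) G Finset.univ
  rw [h3]
  refine Finset.sum_congr rfl fun g _ => ?_
  rw [Submodule.coe_smul, h2, map_smul, hw, smul_eq_mul, mul_comm]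
  rfl

/-- Linear independence of forms, applied to vectors modulo a subspace. -/
theorem mem_of_sum_mem [FiniteDimensional K M] {n m : ℕ}
    {S : Set ((Fin n → V) [⋀^Fin m × Fin 2]→ₗ[K] K)}
    [Fintype S] (hS : LinearIndependent K ((↑) : S → ((Fin n → V) [⋀^Fin m × Fin 2]→ₗ[K] K)))
    (C : Submodule K M) (w : S → M)
    (h : ∀ v, ∑ g : S, (g : (Fin n → V) [⋀^Fin m × Fin 2]→ₗ[K] K) v • w g ∈ C) (g : S) :
    w g ∈ C := by
  classical
  rw [← Submodule.Quotient.mk_eq_zero, ← Module.forall_dual_apply_eq_zero_iff K]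
  intro l
  have h1 : ∑ g : S, (l (C.mkQ (w g))) • (g : (Fin n → V) [⋀^Fin m × Fin 2]→ₗ[K] K) = 0 := by
    ext v
    have h2 := (Submodule.Quotient.mk_eq_zero C).2 (h v)
    have h3 := congrArg l h2
    rw [← Submodule.mkQ_apply, map_sum, map_sum, map_zero] at h3
    have h5 : ∀ G : S → ((Fin n → V) [⋀^Fin m × Fin 2]→ₗ[K] K), (∑ g, G g) v = ∑ g, G g v := by
      intro G
      exact map_sum ({ toFun := fun F => F v
                       map_zero' := rfl
                       map_add' := fun _ _ => rfl } :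
        ((Fin n → V) [⋀^Fin m × Fin 2]→ₗ[K] K) →+ K) G Finset.univ
    rw [h5]
    change ∑ g : S, (l (C.mkQ (w g))) * (g : (Fin n → V) [⋀^Fin m × Fin 2]→ₗ[K] K) v = 0
    rw [← h3]
    refine Finset.sum_congr rfl fun g _ => ?_
    rw [map_smul, map_smul, smul_eq_mul, mul_comm]
  exact (Fintype.linearIndependent_iff.1 hS) _ h1 g

end Pool.Agent.K6.H94.BI
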