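import Mathlib
import Pool.Agent.K6.H94.BI.OpenA

/-!
# Classes which are invariant up to algebraic classes
-/

set_option linter.unusedSectionVars false

namespace Pool.Agent.K6.H94.BI

open Module Pool.Agent.H204R3.CM Pool.Agent.H204R3.SP Pool.Agent.H204R3.GP
open Pool.Agent.Y137.MV (IsEquivariant IsTateForm IsTateVector IsProduct Wedges Products
  alt_of_comp final_step wedge_tate alt_finite)

variable {K : Type*} [Field K] [CharZero K] {V : Type*} [AddCommGroup V] [Module K V]
  [FiniteDimensional K V] {M : Type*} [AddCommGroup M] [Module K M] [FiniteDimensional K M]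
  {Γ : Type*} [Group Γ]

section stageA

variable {κ : Type*} [Fintype κ] [DecidableEq κ]

theorem finrank_map_mkQ (C c : Submodule K M) :
    finrank K (c.map C.mkQ) + finrank K (c ⊓ C : Submodule K M) = finrank K c := by
  have h1 := LinearMap.finrank_range_add_finrank_ker (C.mkQ.domRestrict c)
  have h2 : LinearMap.range (C.mkQ.domRestrict c) = c.map C.mkQ := by
    ext x
    simp
  have h3 : LinearMap.ker (C.mkQ.domRestrict c) = C.comap c.subtype := by
    ext x
    simp [LinearMap.mem_ker, LinearMap.domRestrict_apply]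
  have h4 : finrank K (C.comap c.subtype) = finrank K (c ⊓ C : Submodule K M) := by
    have h5 : (C.comap c.subtype).map c.subtype = c ⊓ C := Submodule.map_comap_subtype c C
    rw [← h5]
    exact LinearEquiv.finrank_eq (Submodule.equivMapOfInjective c.subtype
      (Submodule.injective_subtype c) _)
  rw [h2, h3, h4] at h1
  exact h1

/-- The derivations of a multilinear map with values in a quotient. -/
theorem der_quotient {ρ : Representation K Γ V} {τ : Representation K Γ M} (ω : V →ₗ[K] V →ₗ[K] K)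
    (halt : ∀ v, ω v v = 0) (W : Submodule K V)
    (hnd : ∀ u ∈ W, (∀ v ∈ W, ω v u = 0) → u = 0)
    (hbig : ∀ v ∈ W, (ω v).smulRight v ∈ Submodule.span K {Y | IsLog ρ Y})
    (hsm : StepsLT τ (finrank K W)) (C : Submodule K M)
    (φ : MultilinearMap K (fun _ : κ => V) M) (Δ : Subgroup Γ) (hΔ : Δ.FiniteIndex)
    (hC : ∀ s ∈ Δ, ∀ x ∈ C, τ s x ∈ C)
    (hφ : ∀ s ∈ Δ, ∀ v, τ s (φ v) - φ (fun j => ρ s (v j)) ∈ C) :
    ∀ u ∈ W, ∀ v ∈ W, ∀ x, der (C.mkQ.compMultilinearMap φ) (sy ω u v) x = 0 := by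
  obtain ⟨Δ₂, hΔ₂, r, c, h0, hr, hmono, hst, hdim⟩ := hsm
  let 𝒜 : Submodule K (End K (M ⧸ C)) :=
    { carrier := {B | ∀ j, ∀ x ∈ (c j).map C.mkQ, B x ∈ (c j).map C.mkQ}
      zero_mem' := fun j x _ => Submodule.zero_mem _
      add_mem' := fun hX hY j x hx => Submodule.add_mem _ (hX j x hx) (hY j x hx)
      smul_mem' := fun t X hX j x hx => Submodule.smul_mem _ t (hX j x hx) }
  have hlog : Submodule.span K {Y | IsLog ρ Y} ≤ opSpace (C.mkQ.compMultilinearMap φ) 𝒜 := by
    rw [Submodule.span_le]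
    rintro Y ⟨N, hN, s, hs⟩
    obtain ⟨n, hn, -, hsn⟩ := Subgroup.exists_pow_mem_of_index_ne_zero
      (H := Δ ⊓ Δ₂) (Subgroup.FiniteIndex.index_ne_zero) s
    rw [Subgroup.mem_inf] at hsn
    let T : End K (M ⧸ C) := C.mapQ C (τ (s ^ n)) (fun x hx => hC _ hsn.1 x hx)
    have hT : ∀ x, T (C.mkQ x) = C.mkQ (τ (s ^ n) x) := fun x => rfl
    have hTc : ∀ j, ∀ x ∈ (c j).map C.mkQ, T x ∈ (c j).map C.mkQ := by
      rintro j _ ⟨x, hx, rfl⟩
      rw [hT]
      exact ⟨_, hst j _ hsn.2 x hx, rfl⟩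
    have hsρ : ρ (s ^ n) = expo Y N n := by
      rw [map_pow, hs, ← expo_one, expo_pow Y N hN, one_mul]
    obtain ⟨B, hB, hB'⟩ := exists_op (C.mkQ.compMultilinearMap φ) hN hn T (fun v => by
      change C.mkQ (φ _) = T (C.mkQ (φ v))
      rw [hT]
      have h1 := hφ _ hsn.1 v
      rw [hsρ] at h1
      symm
      rw [← sub_eq_zero, ← map_sub]
      exact (Submodule.Quotient.mk_eq_zero C).2 h1)
    refine ⟨B, ?_, hB'⟩
    clear hB'
    induction hB using Submodule.span_induction with
    | mem B hB =>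
      obtain ⟨t, rfl⟩ := hB
      intro j x hx
      change (T ^ t) x ∈ _
      induction t with
      | zero => exact hx
      | succ t ih =>
        rw [pow_succ', Module.End.mul_apply]
        exact hTc j _ ih
    | zero => exact Submodule.zero_mem _
    | add A B _ _ hA hB => exact Submodule.add_mem _ hA hB
    | smul t A _ hA => exact Submodule.smul_mem _ t hA
  intro u hu v hv x
  refine der_eq_zero (𝒜 := 𝒜) ω halt W hnd (sy_mem ω W _ fun w hw => hlog (hbig w hw)) r
    (fun j => (c j).map C.mkQ) ?_ ?_ (fun j hj => Submodule.map_mono (hmono j hj))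
    (fun j B hB x hx => hB j x hx) ?_ u v hu hv x
  · change (c 0).map C.mkQ = ⊥
    rw [h0, Submodule.map_bot]
  · change (c r).map C.mkQ = ⊤
    rw [hr, Submodule.map_top, Submodule.range_mkQ]
  · intro j hj
    have h1 := finrank_map_mkQ C (c j)
    have h2 := finrank_map_mkQ C (c (j + 1))
    have h3 := Submodule.finrank_mono (inf_le_inf_right C (hmono j hj))
    have h4 := hdim j hj
    change finrank K ((c (j + 1)).map C.mkQ) < finrank K ((c j).map C.mkQ) + finrank K W
    omega

end stageA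

section stageB

variable {κ : Type*} [Fintype κ] [DecidableEq κ]

omit [CharZero K] [FiniteDimensional K V] in
/-- The symplectic Lie algebra acts on itself. -/
theorem exists_self (ω : V →ₗ[K] V →ₗ[K] K) (halt : ∀ v, ω v v = 0) (W : Submodule K V) :
    ∃ β : W →ₗ[K] W →ₗ[K] End K V, IsAct (ω.domRestrict₁₂ W W) β ∧
      ∀ u v : W, β u v = sy ω u v := by
  have hanti := anti halt
  let β : W →ₗ[K] W →ₗ[K] End K V := LinearMap.mk₂ K (fun u v => sy ω u v)
    (by
      intro u u' v
      ext x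
      change sy ω (u + u' : W) v x = sy ω u v x + sy ω u' v x
      simp only [sy_apply, Submodule.coe_add, map_add, LinearMap.add_apply, smul_add, add_smul]
      abel)
    (by
      intro t u v
      ext x
      change sy ω (t • u : W) v x = t • sy ω u v x
      simp only [sy_apply, Submodule.coe_smul, map_smul, LinearMap.smul_apply, smul_add, smul_smul,
        smul_eq_mul, mul_comm])
    (by
      intro u v v'
      ext x
      change sy ω u (v + v' : W) x = sy ω u v x + sy ω u v' x
      simp only [sy_apply, Submodule.coe_add, map_add, LinearMap.add_apply, smul_add, add_smul]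
      abel)
    (by
      intro t u v
      ext x
      change sy ω u (t • v : W) x = t • sy ω u v x
      simp only [sy_apply, Submodule.coe_smul, map_smul, LinearMap.smul_apply, smul_add, smul_smul,
        smul_eq_mul, mul_comm])
  have hβ : ∀ u v, β u v = sy ω u v := fun u v => rfl
  refine ⟨β, ⟨?_, ?_⟩, hβ⟩
  · intro u v
    ext x
    rw [hβ, hβ, sy_apply, sy_apply, add_comm]
  · intro u v w z
    rw [hβ, hβ, hβ, hβ]
    ext x
    change sy ω u v (sy ω w z x) - sy ω w z (sy ω u v x) =
      sy ω (sy (ω.domRestrict₁₂ W W) u v w : W) z x + sy ω w (sy (ω.domRestrict₁₂ W W) u v z : W) x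
    have e1 : ((sy (ω.domRestrict₁₂ W W) u v w : W) : V) = ω u w • (v : V) + ω v w • (u : V) := rfl
    have e2 : ((sy (ω.domRestrict₁₂ W W) u v z : W) : V) = ω u z • (v : V) + ω v z • (u : V) := rfl
    rw [e1, e2]
    simp only [sy_apply, map_add, map_smul, LinearMap.add_apply, LinearMap.smul_apply, smul_eq_mul]
    rw [hanti v w, hanti u w, hanti v z, hanti u z]
    module

/-- A form whose derivations along the logarithms are forms killed by the logarithms is killed by the
symplectic Lie algebra. -/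
theorem der_zero_of_log {ρ : Representation K Γ V} (ω : V →ₗ[K] V →ₗ[K] K)
    (halt : ∀ v, ω v v = 0) (W : Submodule K V)
    (hnd : ∀ u ∈ W, (∀ v ∈ W, ω v u = 0) → u = 0)
    (hbig : ∀ v ∈ W, (ω v).smulRight v ∈ Submodule.span K {Y | IsLog ρ Y})
    (φ : MultilinearMap K (fun _ : κ => V) K)
    (hφ : ∀ Y, IsLog ρ Y → ∃ ψ : MultilinearMap K (fun _ : κ => V) K, (∀ v, der φ Y v = ψ v) ∧
      ∀ Y', IsLog ρ Y' → ∀ v, der ψ Y' v = 0) :
    ∀ u ∈ W, ∀ v ∈ W, ∀ x, der φ (sy ω u v) x = 0 := by
  let L := Submodule.span K {Y | IsLog ρ Y}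
  have hkill : ∀ ψ : MultilinearMap K (fun _ : κ => V) K, (∀ Y', IsLog ρ Y' → ∀ v, der ψ Y' v = 0) →
      ∀ X ∈ L, ∀ v, der ψ X v = 0 := by
    intro ψ h X hX v
    induction hX using Submodule.span_induction with
    | mem X hX => exact h X hX v
    | zero => exact der_zero ψ v
    | add X Y _ _ hX hY => rw [der_add, hX, hY, add_zero]
    | smul t X _ hX => rw [der_smul, hX, smul_zero]
  have hψ : ∀ X ∈ L, ∃ ψ : MultilinearMap K (fun _ : κ => V) K, (∀ v, der φ X v = ψ v) ∧
      ∀ Y ∈ L, ∀ v, der ψ Y v = 0 := by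
    intro X hX
    induction hX using Submodule.span_induction with
    | mem X hX =>
      obtain ⟨ψ, h1, h2⟩ := hφ X hX
      exact ⟨ψ, h1, hkill ψ h2⟩
    | zero => exact ⟨0, fun v => der_zero φ v, fun Y _ v => Finset.sum_eq_zero fun j _ => rfl⟩
    | add X Y _ _ hX hY =>
      obtain ⟨ψ, h1, h2⟩ := hX
      obtain ⟨ψ', h1', h2'⟩ := hY
      refine ⟨ψ + ψ', fun v => by rw [der_add, h1, h1']; rfl, fun Z hZ v => ?_⟩
      have h3 := h2 Z hZ v
      have h4 := h2' Z hZ v
      unfold der at h3 h4 ⊢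
      change ∑ j, (ψ _ + ψ' _) = 0
      rw [Finset.sum_add_distrib, h3, h4, add_zero]
    | smul t X _ hX =>
      obtain ⟨ψ, h1, h2⟩ := hX
      refine ⟨t • ψ, fun v => by rw [der_smul, h1]; rfl, fun Z hZ v => ?_⟩
      have h3 := h2 Z hZ v
      unfold der at h3 ⊢
      change ∑ j, t • (ψ _) = 0
      rw [← Finset.smul_sum, h3, smul_zero]
  have hWL := sy_mem ω W L hbig
  let T : Submodule K (End K V) :=
    { carrier := {X | ∀ v, der φ X v = 0}
      zero_mem' := fun v => der_zero φ v
      add_mem' := fun hX hY v => by rw [der_add, hX, hY, add_zero]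
      smul_mem' := fun t X hX v => by rw [der_smul, hX, smul_zero] }
  obtain ⟨β, hβ, hβ'⟩ := exists_self ω halt W
  intro u hu v hv x
  have h1 := hβ.mem_of_bracket (fun u hu => Subtype.ext (hnd u u.2 fun v hv => hu ⟨v, hv⟩)) T (by
    intro u v w z y
    rw [hβ', hβ', ← der_comm]
    obtain ⟨ψ, h1, h2⟩ := hψ _ (hWL u u.2 v v.2)
    obtain ⟨ψ', h1', h2'⟩ := hψ _ (hWL w w.2 z z.2)
    rw [Finset.sum_congr rfl fun i _ => h1 _, Finset.sum_congr rfl fun i _ => h1' _]
    have h3 := h2 _ (hWL w w.2 z z.2) y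
    have h4 := h2' _ (hWL u u.2 v v.2) y
    unfold der at h3 h4
    rw [h3, h4, sub_zero]) ⟨u, hu⟩ ⟨v, hv⟩
  rw [hβ'] at h1
  exact h1 x

end stageB

end Pool.Agent.K6.H94.BI
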