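import Mathlib
import Pool.Agent.K6.H94.BI.OpenB

/-!
# Classes which are invariant up to algebraic classes: conclusion
-/

set_option linter.unusedSectionVars false

namespace Pool.Agent.K6.H94.BI

open Module Pool.Agent.H204R3.CM Pool.Agent.H204R3.SP Pool.Agent.H204R3.GP
open Pool.Agent.Y137.MV (IsEquivariant IsTateForm IsTateVector IsProduct Wedges Products
  alt_of_comp final_step wedge_tate alt_finite)

variable {K : Type*} [Field K] [CharZero K] {V : Type*} [AddCommGroup V] [Module K V]
  [FiniteDimensional K V] {M : Type*} [AddCommGroup M] [Module K M] [FiniteDimensional K M]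
  {Γ : Type*} [Group Γ]

/-- The `c`-component of an alternating map. -/
abbrev comp {n : ℕ} {κ : Type} {M' : Type*} [AddCommGroup M'] [Module K M']
    (g : (Fin n → V) [⋀^κ]→ₗ[K] M') (c : κ → Fin n) : MultilinearMap K (fun _ : κ => V) M' :=
  g.toMultilinearMap.compLinearMap (fun l => LinearMap.single K (fun _ : Fin n => V) (c l))

theorem comp_rho {n : ℕ} {κ : Type} {M' : Type*} [AddCommGroup M'] [Module K M']
    (g : (Fin n → V) [⋀^κ]→ₗ[K] M') (c : κ → Fin n) (X : End K V) (v : κ → V) :
    comp g c (fun j => X (v j)) = g (fun l i => X ((Pi.single (c l) (v l) : Fin n → V) i)) := by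
  change g (fun l => Pi.single (c l) (X (v l))) = _
  congr 1
  funext l i
  by_cases hi : i = c l
  · subst hi
    rw [Pi.single_eq_same, Pi.single_eq_same]
  · rw [Pi.single_eq_of_ne hi, Pi.single_eq_of_ne hi, map_zero]

/-- Combinations of wedge products are Tate forms, for a common subgroup. -/
theorem exists_common_wedges (ρ : Representation K Γ V) (χ : Γ →* K) (n m : ℕ) :
    ∃ Δ : Subgroup Γ, Δ.FiniteIndex ∧ ∀ f ∈ Submodule.span K (Wedges ρ χ (V := V) n m), ∀ s ∈ Δ,
      ∀ v, f (fun l i => ρ s (v l i)) = χ s ^ m * f v := by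
  let P : Subgroup Γ → Submodule K ((Fin n → V) [⋀^Fin m × Fin 2]→ₗ[K] K) := fun Δ =>
    { carrier := {f | ∀ s ∈ Δ, ∀ v, f (fun l i => ρ s (v l i)) = χ s ^ m * f v}
      zero_mem' := fun s _ v => by
        change (0 : K) = χ s ^ m * 0
        rw [mul_zero]
      add_mem' := fun {f g} hf hg s hs v => by
        change f _ + g _ = χ s ^ m * (f v + g v)
        rw [hf s hs, hg s hs, mul_add]
      smul_mem' := fun t f hf s hs v => by
        change t * f _ = χ s ^ m * (t * f v)
        rw [hf s hs]
        ring }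
  obtain ⟨Δ, hΔ, h⟩ := exists_common (Submodule.span K (Wedges ρ χ (V := V) n m))
    (IsNoetherian.noetherian _) P (fun Δ Δ' h f hf s hs v => hf s (h hs) v) (by
      intro f hf
      induction hf using Submodule.span_induction with
      | mem f hf =>
        obtain ⟨Δ, hΔ, h⟩ := wedge_tate ρ χ hf
        exact ⟨Δ, hΔ, h⟩
      | zero => exact ⟨⊤, inferInstance, Submodule.zero_mem _⟩
      | add f g _ _ hf hg =>
        obtain ⟨Δ, hΔ, h⟩ := hf
        obtain ⟨Δ', hΔ', h'⟩ := hg
        refine ⟨Δ ⊓ Δ', inferInstance, Submodule.add_mem _ ?_ ?_⟩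
        · exact fun s hs v => h s (Subgroup.mem_inf.1 hs).1 v
        · exact fun s hs v => h' s (Subgroup.mem_inf.1 hs).2 v
      | smul t f _ hf =>
        obtain ⟨Δ, hΔ, h⟩ := hf
        exact ⟨Δ, hΔ, Submodule.smul_mem _ t h⟩)
  exact ⟨Δ, hΔ, fun f hf s hs v => h hf s hs v⟩

/-- A common subgroup for a space of Tate vectors. -/
theorem exists_common_vectors (τ : Representation K Γ M) (χ : Γ →* K) (m : ℕ) (C : Submodule K M)
    (hC : ∀ w ∈ C, IsTateVector τ χ m w) :
    ∃ Δ : Subgroup Γ, Δ.FiniteIndex ∧ ∀ w ∈ C, ∀ s ∈ Δ, τ s w = χ s ^ m • w := by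
  let P : Subgroup Γ → Submodule K M := fun Δ =>
    { carrier := {w | ∀ s ∈ Δ, τ s w = χ s ^ m • w}
      zero_mem' := fun s _ => by rw [map_zero, smul_zero]
      add_mem' := fun {f g} hf hg s hs => by rw [map_add, hf s hs, hg s hs, smul_add]
      smul_mem' := fun t f hf s hs => by rw [map_smul, hf s hs, smul_comm] }
  obtain ⟨Δ, hΔ, h⟩ := exists_common C (IsNoetherian.noetherian _) P
    (fun Δ Δ' h f hf s hs => hf s (h hs)) (fun w hw => hC w hw)
  exact ⟨Δ, hΔ, fun f hf s hs => h hf s hs⟩

/-- The maps in `Generated` have values in `C`, and their scalar components are combinations of wedge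
products. -/
theorem generated_props (ρ : Representation K Γ V) (χ : Γ →* K) {n m : ℕ} (C : Submodule K M)
    {h : (Fin n → V) [⋀^Fin m × Fin 2]→ₗ[K] M} (hh : h ∈ Generated ρ χ n m C) :
    (∀ v, h v ∈ C) ∧ ∀ l : M →ₗ[K] K, l.compAlternatingMap h ∈
      Submodule.span K (Wedges ρ χ (V := V) n m) := by
  induction hh using Submodule.span_induction with
  | mem h hh =>
    obtain ⟨B, w, hB, hw, hh⟩ := hh
    refine ⟨fun v => by rw [hh]; exact Submodule.smul_mem _ _ hw, fun l => ?_⟩
    by_cases hw0 : w = 0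
    · have h1 : l.compAlternatingMap h = 0 := by
        ext v
        change l (h v) = 0
        rw [hh, hw0, smul_zero, map_zero]
      rw [h1]
      exact Submodule.zero_mem _
    · obtain ⟨l₀, hl₀⟩ : ∃ l₀ : Dual K M, l₀ w = 1 := by
        obtain ⟨f, hf⟩ := Module.Projective.exists_dual_ne_zero K hw0
        exact ⟨(f w)⁻¹ • f, by
          rw [LinearMap.smul_apply, smul_eq_mul]
          exact inv_mul_cancel₀ hf⟩
      have h2 : l.compAlternatingMap h = l w • l₀.compAlternatingMap h := by
        ext v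
        change l (h v) = l w • l₀ (h v)
        rw [hh, map_smul, map_smul, hl₀, smul_eq_mul, smul_eq_mul, smul_eq_mul, mul_one, mul_comm]
      rw [h2]
      refine Submodule.smul_mem _ _ (Submodule.subset_span ⟨B, hB, fun v => ?_⟩)
      change l₀ (h v) = _
      rw [hh, map_smul, hl₀, smul_eq_mul, mul_one]
  | zero =>
    refine ⟨fun v => C.zero_mem, fun l => ?_⟩
    have h1 : l.compAlternatingMap (0 : (Fin n → V) [⋀^Fin m × Fin 2]→ₗ[K] M) = 0 := by
      ext v
      exact map_zero l
    rw [h1]
    exact Submodule.zero_mem _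
  | add f g _ _ hf hg =>
    refine ⟨fun v => C.add_mem (hf.1 v) (hg.1 v), fun l => ?_⟩
    have h1 : l.compAlternatingMap (f + g) = l.compAlternatingMap f + l.compAlternatingMap g := by
      ext v
      exact map_add l _ _
    rw [h1]
    exact Submodule.add_mem _ (hf.2 l) (hg.2 l)
  | smul t f _ hf =>
    refine ⟨fun v => C.smul_mem t (hf.1 v), fun l => ?_⟩
    have h1 : l.compAlternatingMap (t • f) = t • l.compAlternatingMap f := by
      ext v
      exact map_smul l _ _
    rw [h1]
    exact Submodule.smul_mem _ t (hf.2 l)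

end Pool.Agent.K6.H94.BI
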