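import Mathlib
import Pool.Agent.K6.H94.BI.OpenC

/-!
# Classes which are invariant up to algebraic classes: the theorem
-/

set_option linter.unusedSectionVars false

namespace Pool.Agent.K6.H94.BI

open Module Pool.Agent.H204R3.CM Pool.Agent.H204R3.SP Pool.Agent.H204R3.GP
open Pool.Agent.Y137.MV (IsEquivariant IsTateForm IsTateVector IsProduct Wedges Products
  alt_of_comp final_step wedge_tate alt_finite)

variable {K : Type*} [Field K] [CharZero K] {V : Type*} [AddCommGroup V] [Module K V]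
  [FiniteDimensional K V] {M : Type*} [AddCommGroup M] [Module K M] [FiniteDimensional K M]
  {Γ : Type*} [Group Γ]

theorem closednessSplits (ρ : Representation K Γ V) (τ : Representation K Γ M) (χ : Γ →* K)
    (ω : V →ₗ[K] V →ₗ[K] K) (halt : ∀ v, ω v v = 0) (hnd : ∀ u, (∀ v, ω v u = 0) → u = 0)
    (hωρ : ∀ s u v, ω (ρ s u) (ρ s v) = χ s * ω u v)
    {ι : Type*} [Fintype ι] (W : ι → Submodule K V) (hspan : ⨆ i, W i = ⊤)
    (horth : ∀ i j, i ≠ j → ∀ u ∈ W i, ∀ v ∈ W j, ω u v = 0)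
    (hstab : ∀ i s, ∀ v ∈ W i, ρ s v ∈ W i)
    (hbig : ∀ i, ∀ v ∈ W i, (ω v).smulRight v ∈ Submodule.span K {Y | IsLog ρ Y})
    (hsm : ∀ i, StepsLT τ (finrank K (W i))) : ClosednessSplits ρ χ τ := by
  classical
  intro n m C hC g hg
  obtain ⟨Δ₀, hΔ₀, hg⟩ := hg
  obtain ⟨Δ₁, hΔ₁, hWd⟩ := exists_common_wedges (V := V) ρ χ n m
  obtain ⟨Δ₂, hΔ₂, hCv⟩ := exists_common_vectors τ χ m C hC.1
  obtain ⟨Δ, hΔ, h0, h1, h2⟩ : ∃ Δ : Subgroup Γ, Δ.FiniteIndex ∧ (∀ s ∈ Δ, s ∈ Δ₀) ∧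
      (∀ s ∈ Δ, s ∈ Δ₁) ∧ (∀ s ∈ Δ, s ∈ Δ₂) :=
    ⟨Δ₀ ⊓ Δ₁ ⊓ Δ₂, inferInstance, fun s hs => (Subgroup.mem_inf.1 (Subgroup.mem_inf.1 hs).1).1,
      fun s hs => (Subgroup.mem_inf.1 (Subgroup.mem_inf.1 hs).1).2,
      fun s hs => (Subgroup.mem_inf.1 hs).2⟩
  choose! h hh hgh using fun s (hs : s ∈ Δ) => hg s (h0 s hs)
  have hhC : ∀ s ∈ Δ, ∀ v, h s v ∈ C := fun s hs => (generated_props ρ χ C (hh s hs)).1
  have hhW : ∀ s ∈ Δ, ∀ l : M →ₗ[K] K, l.compAlternatingMap (h s) ∈
      Submodule.span K (Wedges ρ χ (V := V) n m) := fun s hs => (generated_props ρ χ C (hh s hs)).2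
  have hCst : ∀ s ∈ Δ, ∀ x ∈ C, τ s x ∈ C := by
    intro s hs x hx
    rw [hCv x hx s (h2 s hs)]
    exact C.smul_mem _ hx
  have hndW := nondeg_part ω hnd W hspan horth
  -- first step: `g` has values in `C`
  have hA : ∀ l : (M ⧸ C) →ₗ[K] K, l.compAlternatingMap (C.mkQ.compAlternatingMap g) ∈
      Submodule.span K (Wedges ρ χ (V := V) n m) := by
    intro l
    refine alt_of_comp ρ χ _ fun c => ?_
    refine mem_PT ω halt hnd W hspan horth ρ χ hωρ hstab _ fun i u hu v hv x => ?_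
    have h3 := der_quotient ω halt (W i) (hndW i) (hbig i) (hsm i) C (comp g c) Δ hΔ hCst (by
      intro s hs v
      rw [comp_rho]
      have h4 := hgh s hs (fun l => Pi.single (c l) (v l))
      change τ s (g (fun l => Pi.single (c l) (v l))) - _ ∈ C
      rw [h4]
      exact hhC s hs _) u hu v hv x
    have h4 := der_comp (C.mkQ.compMultilinearMap (comp g c)) l (sy ω u v) x
    rw [h3, map_zero] at h4
    exact h4
  have hgC : ∀ v, g v ∈ C := by
    obtain ⟨S, hS, wb, hSW, hli, hexp⟩ := expand ρ χ (C.mkQ.compAlternatingMap g) hA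
    choose w hw using fun P : S => C.mkQ_surjective (wb P)
    have hexp' : ∀ v, g v - ∑ P : S, (P : (Fin n → V) [⋀^Fin m × Fin 2]→ₗ[K] K) v • w P ∈ C := by
      intro v
      rw [← Submodule.Quotient.mk_eq_zero, ← Submodule.mkQ_apply, map_sub, map_sum, sub_eq_zero]
      have h3 := hexp v
      change C.mkQ (g v) = _ at h3
      rw [h3]
      refine Finset.sum_congr rfl fun P _ => ?_
      rw [map_smul, hw]
    have hwC : ∀ P, w P ∈ C := by
      intro P
      refine hC.2 (w P) ⟨Δ, hΔ, fun s hs => ?_⟩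
      refine mem_of_sum_mem hli C (fun P => τ s (w P) - χ s ^ m • w P) (fun v => ?_) P
      have e1 := hCst s hs _ (hexp' v)
      have e2 := hexp' (fun l i => ρ s (v l i))
      have e3 : τ s (g v) - g (fun l i => ρ s (v l i)) ∈ C := by
        rw [hgh s hs v]
        exact hhC s hs v
      have e4 : ∀ P : S, (P : (Fin n → V) [⋀^Fin m × Fin 2]→ₗ[K] K) (fun l i => ρ s (v l i)) =
          χ s ^ m * (P : (Fin n → V) [⋀^Fin m × Fin 2]→ₗ[K] K) v := fun P =>
        hWd P (Submodule.subset_span (hSW P.2)) s (h1 s hs) v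
      simp only [e4] at e2
      have e5 : ∑ P : S, (P : (Fin n → V) [⋀^Fin m × Fin 2]→ₗ[K] K) v •
          (τ s (w P) - χ s ^ m • w P) = (τ s (g v) - g (fun l i => ρ s (v l i))) -
          τ s (g v - ∑ P : S, (P : (Fin n → V) [⋀^Fin m × Fin 2]→ₗ[K] K) v • w P) +
          (g (fun l i => ρ s (v l i)) - ∑ P : S, (χ s ^ m *
            (P : (Fin n → V) [⋀^Fin m × Fin 2]→ₗ[K] K) v) • w P) := by
        rw [map_sub, map_sum]
        have e6 : ∀ P : S, (P : (Fin n → V) [⋀^Fin m × Fin 2]→ₗ[K] K) v •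
            (τ s (w P) - χ s ^ m • w P) = τ s ((P : (Fin n → V) [⋀^Fin m × Fin 2]→ₗ[K] K) v • w P) -
            (χ s ^ m * (P : (Fin n → V) [⋀^Fin m × Fin 2]→ₗ[K] K) v) • w P := by
          intro P
          rw [smul_sub, map_smul, smul_smul, mul_comm]
        rw [Finset.sum_congr rfl fun P _ => e6 P, Finset.sum_sub_distrib]
        abel
      rw [e5]
      exact C.add_mem (C.sub_mem e3 e1) e2
    intro v
    have h3 := C.add_mem (hexp' v) (C.sum_mem (t := Finset.univ)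
      (f := fun P : S => (P : (Fin n → V) [⋀^Fin m × Fin 2]→ₗ[K] K) v • w P)
      fun P _ => C.smul_mem _ (hwC P))
    rw [sub_add_cancel] at h3
    exact h3
  -- second step
  have hB : ∀ l : M →ₗ[K] K, l.compAlternatingMap g ∈
      Submodule.span K (Wedges ρ χ (V := V) n m) := by
    intro l
    refine alt_of_comp ρ χ _ fun c => ?_
    refine mem_PT ω halt hnd W hspan horth ρ χ hωρ hstab _ fun i => ?_
    refine der_zero_of_log ω halt (W i) (hndW i) (hbig i) _ ?_
    rintro Y ⟨N, hN, s, hs⟩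
    rcases subsingleton_or_nontrivial V with hV | hV
    · have hY : Y = 0 := Subsingleton.elim _ _
      subst hY
      refine ⟨0, fun v => der_zero _ v, fun Y' _ v => Finset.sum_eq_zero fun j _ => rfl⟩
    have hshift : ∀ (Y : End K V) (N : ℕ) (s : Γ), Y ^ N = 0 →
        ρ s = ∑ i ∈ Finset.range N, ((i.factorial : K)⁻¹) • Y ^ i →
        ∃ k, 0 < k ∧ s ^ k ∈ Δ ∧ ρ (s ^ k) = expo Y N k ∧ χ (s ^ k) = 1 := by
      intro Y N s hN hs
      obtain ⟨k, hk, -, hsk⟩ := Subgroup.exists_pow_mem_of_index_ne_zero hΔ.index_ne_zero s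
      refine ⟨k, hk, hsk, by rw [map_pow, hs, ← expo_one, expo_pow Y N hN, one_mul], ?_⟩
      rw [map_pow, multiplier_eq_one ω hnd halt (ρ s) (χ s) (hωρ s) hN hs, one_pow]
    obtain ⟨k, hk, hsk, hρk, hχk⟩ := hshift Y N s hN hs
    let ψ : MultilinearMap K (fun _ : Fin m × Fin 2 => V) K :=
      -comp (l.compAlternatingMap (h (s ^ k))) c
    have hψ : ∀ v, ψ v = -l (h (s ^ k) (fun l => Pi.single (c l) (v l))) := fun v => rfl
    have hψinv : ∀ t ∈ Δ, χ t = 1 → ∀ v, ψ (fun j => ρ t (v j)) = ψ v := by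
      intro t ht hχt v
      have e1 := hWd _ (hhW (s ^ k) hsk l) t (h1 t ht) (fun l => Pi.single (c l) (v l))
      rw [hχt, one_pow, one_mul] at e1
      have e2 := comp_rho (l.compAlternatingMap (h (s ^ k))) c (ρ t) v
      change -(comp (l.compAlternatingMap (h (s ^ k))) c (fun j => ρ t (v j))) = _
      rw [e2, e1]
      rfl
    refine ⟨(k : K)⁻¹ • ψ, fun v => ?_, ?_⟩
    · refine der_of_shift (comp (l.compAlternatingMap g) c) ψ hN hk (fun v => ?_) (fun v => ?_) v
      · have e2 := comp_rho (l.compAlternatingMap g) c (ρ (s ^ k)) v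
        rw [hρk] at e2
        rw [e2]
        have e3 := hgh (s ^ k) hsk (fun l => Pi.single (c l) (v l))
        rw [hρk, hCv _ (hgC _) (s ^ k) (h2 _ hsk), hχk, one_pow, one_smul, sub_eq_iff_eq_add] at e3
        have e4 : (comp (l.compAlternatingMap g) c) v = l (g fun l => Pi.single (c l) (v l)) := rfl
        rw [e4, hψ, e3, map_add]
        change l (g _) = _
        ring
      · rw [← hρk]
        exact hψinv _ hsk hχk v
    · rintro Y' ⟨N', hN', s', hs'⟩ v
      obtain ⟨k', hk', hsk', hρk', hχk'⟩ := hshift Y' N' s' hN' hs'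
      have e1 := der_of_shift ((k : K)⁻¹ • ψ) 0 hN' hk' (fun v => by
        rw [← hρk']
        change (k : K)⁻¹ • ψ _ = (k : K)⁻¹ • ψ v + 0
        rw [hψinv _ hsk' hχk', add_zero]) (fun v => rfl) v
      rw [e1]
      exact smul_zero _
  -- conclusion
  obtain ⟨S, hS, w, hSW, hli, hexp⟩ := expand ρ χ g hB
  have hwC : ∀ P, w P ∈ C := mem_of_sum_mem hli C w fun v => by
    rw [← hexp]
    exact hgC v
  have hfin : g = ∑ P : S, (LinearMap.toSpanSingleton K M (w P)).compAlternatingMap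
      (P : (Fin n → V) [⋀^Fin m × Fin 2]→ₗ[K] K) := by
    ext v
    rw [hexp]
    exact (map_sum ({ toFun := fun F => F v
                      map_zero' := rfl
                      map_add' := fun _ _ => rfl } :
      ((Fin n → V) [⋀^Fin m × Fin 2]→ₗ[K] M) →+ M)
        (fun P : S => (LinearMap.toSpanSingleton K M (w P)).compAlternatingMap
          (P : (Fin n → V) [⋀^Fin m × Fin 2]→ₗ[K] K)) Finset.univ).symm
  rw [hfin]
  refine Submodule.sum_mem _ fun P _ => ?_
  obtain ⟨B, hB1, hB2⟩ := hSW P.2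
  refine Submodule.subset_span ⟨B, w P, hB1, hwC P, fun v => ?_⟩
  change (P : (Fin n → V) [⋀^Fin m × Fin 2]→ₗ[K] K) v • w P = _
  rw [hB2]

end Pool.Agent.K6.H94.BI
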