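import Mathlib
import Pool.Agent.K6.H94.BI.OpenD

/-!
# The Tate conjecture for the open subvarieties of the products of generic abelian varieties with
arbitrary smooth varieties

Let `k` be a finitely generated field, `Γ` its Galois group, `ℓ` a prime number invertible in `k`, and
`K` an extension of the field of `ℓ`-adic numbers. Let `A` be an abelian variety over `k`,
`V = V_ℓ (A) ⊗ K` with the action `ρ` of `Γ`, let `ω` be the Weil pairing for a polarization and `χ` the
cyclotomic character. Let `V` be the orthogonal sum of stable subspaces `W i` (for instance
`A = ∏ A i` and `W i = V_ℓ (A i) ⊗ K`) such that for all `v` in `W i` the operator `x ↦ ω (v, x) v` is a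
linear combination of nilpotent operators whose exponentials belong to `ρ (Γ)` (`IsLog`). This is so if
`ρ (Γ)` contains an open subgroup of `∏ Sp (W i)`: see `LargeMonodromyTimesSmooth`.

Let `U` be an arbitrary smooth variety over `k`, proper or not, and `M = H^(2 c - 2 m) (U, K(c))` with
the action `τ` of `Γ`. We suppose (`StepsLT`): for each `i` and over some finite extension of `k`, `M`
has a filtration with steps of dimension less than `dim (W i)`. This is so if the Betti numbers of `U`
are less than `2 dim (A i)`, and whenever the Galois representation on the cohomology of `U` is
potentially solvable.

*Open subvarieties.* Let `Z` be an open subvariety of `X = A ^ r × U` whose complement has codimension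
at least `c`. The kernel of the restriction from `H^(2 c) (X, K(c))` to `H^(2 c) (Z, K(c))` is spanned
by the classes of the components of codimension `c` of the complement, and by the theory of weights
(semipurity) all classes of `H^(2 c) (Z, K(c))` invariant under an open subgroup of `Γ` are
restrictions of classes `g` of `X`. So the Tate conjecture in codimension `c` for all these `Z` (over
all finite extensions of `k`) says: each class `g` such that all `s g - g`, for `s` in a subgroup of
finite index, are combinations of classes of algebraic cycles, is such a combination itself. It can be
checked on the components of `g` in `H^j (A ^ r) ⊗ H^(2 c - j) (U, K(c))`.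

These components are the alternating maps in `j` variables from `V ^ r` to `M`. Let `C` be the span of
the classes of algebraic cycles in `H^(2 c - 2 m) (U, K(c - m))`, as a subspace of `M` (the twist by
`m` multiplies the action by `χ ^ m`). The Tate conjecture for the open subvarieties of `U` (with
complements of codimension at least `c - m`) says that `C` is closed (`IsTateClosed`). The products of
divisor classes on `A ^ r` and of classes in `C` span the space `Generated`.

*The theorem* (`ClosednessSplits`). If `C` is closed then so is `Generated`. Together with
`LargeMonodromyTimesSmooth` (the components for odd `j` vanish, and those of classes of cycles belong to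
`Generated`) this shows: **if the Tate conjecture holds for `U` and for its open subvarieties (of the
type above) then it holds for `A ^ r × U` and for all open subvarieties of `A ^ r × U` (of the type
above)**, for all `r`. It is not assumed that the Galois action on `M` is semisimple or pure; since
`M` may contain nontrivial extensions of Tate classes by Tate classes, this is not a formal
consequence of the Tate conjecture for `A ^ r × U`.

*The proof.* Modulo `C` the map `g` is equivariant; by dimensions its derivations along the
symplectic Lie algebras `sp (W i)` vanish, so modulo `C` it is a combination of products of Tate forms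
of degree two and of vectors `w`. As `C` is closed, all `w` belong to `C`, so that `g` has values in
`C`. Now the derivation of `g` along a logarithm is a combination of products of Tate forms, which are
killed by all logarithms; since `sp (W i)` is perfect, it kills `g`, and `g` belongs to `Generated` by
the first fundamental theorem for symplectic groups.
-/

set_option autoImplicit false

namespace Pool.Agent.Results.MP_2a05c8_ag.LargeMonodromyOpens

open Module Pool.Agent.K6.H94.BI

/-- **Open subvarieties of the products of powers of abelian varieties with large monodromy with
arbitrary smooth varieties whose cohomology has small constituents.** -/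
theorem result {K : Type*} [Field K] [CharZero K] {V : Type*} [AddCommGroup V] [Module K V]
    [FiniteDimensional K V] {M : Type*} [AddCommGroup M] [Module K M] [FiniteDimensional K M]
    {Γ : Type*} [Group Γ] (ρ : Representation K Γ V) (τ : Representation K Γ M) (χ : Γ →* K)
    (ω : V →ₗ[K] V →ₗ[K] K) (halt : ∀ v, ω v v = 0) (hnd : ∀ u, (∀ v, ω v u = 0) → u = 0)
    (hωρ : ∀ s u v, ω (ρ s u) (ρ s v) = χ s * ω u v)
    {ι : Type*} [Fintype ι] (W : ι → Submodule K V) (hspan : ⨆ i, W i = ⊤)
    (horth : ∀ i j, i ≠ j → ∀ u ∈ W i, ∀ v ∈ W j, ω u v = 0)
    (hstab : ∀ i s, ∀ v ∈ W i, ρ s v ∈ W i)
    (hlarge : ∀ i, ∀ v ∈ W i, (ω v).smulRight v ∈ Submodule.span K {Y | IsLog ρ Y})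
    (hsmall : ∀ i, StepsLT τ (finrank K (W i))) : ClosednessSplits ρ χ τ :=
  closednessSplits ρ τ χ ω halt hnd hωρ W hspan horth hstab hlarge hsmall

end Pool.Agent.Results.MP_2a05c8_ag.LargeMonodromyOpens
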